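import Pool.Agent.U96.QH.Orbits

set_option autoImplicit false

/-!
# The proportion of quotient hyperfields
-/

namespace Pool.Agent.U96.QH

open Finset

def IsQ {r : ℕ} (p : Str r) : Prop :=
  ∃ (K : Type) (_ : Field K), ∃ G : Subgroup Kˣ, ∃ f : K → Fin (r+1), QD p K G f

def IsH {r : ℕ} (p : Str r) : Prop := HypAx 0 p.1 p.2

noncomputable def numQ (r : ℕ) : ℕ := Set.ncard {C : Set (Str r) | ∃ p, IsQ p ∧ C = {q | IsQ q ∧ Iso p q}}
noncomputable def numH (r : ℕ) : ℕ := Set.ncard {C : Set (Str r) | ∃ p, IsH p ∧ C = {q | IsH q ∧ Iso p q}}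

def Big {r : ℕ} (p : Str r) : Prop :=
  ∃ (K : Type) (_ : Field K), ∃ G : Subgroup Kˣ, ∃ f : K → Fin (r+1), QD p K G f ∧
    (Infinite K ∨ (Finite K ∧ r ^ 3 + r ≤ Nat.card G))

def Small {r : ℕ} (n : ℕ) (p : Str r) : Prop :=
  ∃ (K : Type) (_ : Field K), ∃ G : Subgroup Kˣ, ∃ f : K → Fin (r+1), QD p K G f ∧
    (Finite K ∧ Nat.card G = n)

theorem Big.good {r : ℕ} {p : Str r} (h : Big p) :
    MulAx 0 p.1 ∧ WeakAdd 0 p.1 p.2 ∧ FullAdd 0 p.1 p.2 := by
  obtain ⟨K, _, G, f, h, h'⟩ := h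
  refine ⟨h.mulAx, h.weakAdd, h.fullAdd ?_⟩
  rcases h' with h' | ⟨h', h''⟩
  · exact diff_infinite h.1 h.2.1 h.2.2.1
  · have := Fintype.ofFinite K
    exact diff_finite h.1 h.2.1 h.2.2.1 h'' h.pos

theorem Big.act {r : ℕ} {p : Str r} (h : Big p) (e : Fin (r+1) ≃ Fin (r+1)) (he : e 0 = 0) :
    Big (act e p) := by
  obtain ⟨K, _, G, f, h, h'⟩ := h
  exact ⟨K, _, G, _, h.act e he, h'⟩

theorem small_iso {r : ℕ} {n : ℕ} {p p' : Str r} (h : Small n p) (h' : Small n p') : Iso p p' := by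
  obtain ⟨K, _, G, f, h1, h2, h3⟩ := h
  obtain ⟨K', _, G', f', h1', h2', h3'⟩ := h'
  have := Fintype.ofFinite K
  have := Fintype.ofFinite K'
  apply iso_of_card h1 h1'
  rw [card_eq h1.1 h1.2.1 h1.2.2.1, card_eq h1'.1 h1'.2.1 h1'.2.2.1, h3, h3']

open Classical in
theorem numQ_le (r : ℕ) : numQ r ≤ (r ^ 3 + r) +
    Set.ncard {C : Set (Str r) | ∃ p, Big p ∧ C = {q | IsQ q ∧ Iso p q}} := by
  let 𝒮 : Finset (Set (Str r)) := (Finset.range (r ^ 3 + r)).image
    (fun n => if h : ∃ p : Str r, Small n p then {q | IsQ q ∧ Iso h.choose q} else ∅)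
  have hsub : {C : Set (Str r) | ∃ p, IsQ p ∧ C = {q | IsQ q ∧ Iso p q}} ⊆
      (𝒮 : Set (Set (Str r))) ∪ {C : Set (Str r) | ∃ p, Big p ∧ C = {q | IsQ q ∧ Iso p q}} := by
    rintro C ⟨p, ⟨K, _, G, f, h⟩, hC⟩
    rcases finite_or_infinite K with hK | hK
    · by_cases hn : r ^ 3 + r ≤ Nat.card G
      · right
        exact ⟨p, ⟨K, _, G, f, h, Or.inr ⟨hK, hn⟩⟩, hC⟩
      · left
        rw [mem_coe, mem_image]
        refine ⟨Nat.card G, by rw [mem_range]; omega, ?_⟩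
        have hS : ∃ p : Str r, Small (Nat.card G) p := ⟨p, K, _, G, f, h, hK, rfl⟩
        rw [dif_pos hS, hC]
        have hiso : Iso p hS.choose := small_iso ⟨K, _, G, f, h, hK, rfl⟩ hS.choose_spec
        ext q
        exact ⟨fun ⟨h1, h2⟩ => ⟨h1, hiso.trans h2⟩, fun ⟨h1, h2⟩ => ⟨h1, hiso.symm.trans h2⟩⟩
    · right
      exact ⟨p, ⟨K, _, G, f, h, Or.inl hK⟩, hC⟩
  have h1 := Set.ncard_le_ncard hsub (Set.toFinite _)
  have h2 := Set.ncard_union_le (𝒮 : Set (Set (Str r))) {C : Set (Str r) | ∃ p, Big p ∧ C = {q | IsQ q ∧ Iso p q}}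
  have h3 : (𝒮 : Set (Set (Str r))).ncard ≤ r ^ 3 + r := by
    rw [Set.ncard_coe_finset]
    exact card_image_le.trans (by rw [card_range])
  unfold numQ
  omega

theorem exists_full (r : ℕ) (hr : 0 < r) : ∃ p : Str r, HypAx 0 p.1 p.2 ∧ FullAdd 0 p.1 p.2 := by
  classical
  have : NeZero r := ⟨hr.ne'⟩
  let A := Multiplicative (ZMod r)
  have hcard : Fintype.card (Option A) = Fintype.card (Fin (r+1)) := by
    rw [Fintype.card_option, Fintype.card_fin]
    congr 1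
    rw [Fintype.card_multiplicative, ZMod.card]
  let e1 : Option A ≃ Fin (r+1) := Fintype.equivOfCardEq hcard
  let e0 : Option A ≃ Fin (r+1) := e1.trans (Equiv.swap (e1 none) 0)
  have he0 : e0 none = 0 := by simp [e0]
  have h1 : HypAx (none : Option A) dmul (dadd 1 (fun _ => true)) :=
    hypAx_dec (by simp) (fun _ _ _ _ => ⟨1, rfl, rfl⟩)
  have h2 : FullAdd (none : Option A) dmul (dadd 1 (fun _ => true)) := dadd_full (fun _ => rfl)
  have h3 := h1.transport e0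
  have h4 := h2.transport e0
  rw [he0] at h3 h4
  exact ⟨(tmul e0 dmul, tadd e0 (dadd 1 (fun _ => true))), h3, h4⟩

theorem main_bound (r : ℕ) (hr0 : 0 < r) (ρ τ : ℝ) (hρ0 : 0 ≤ ρ) (hρ1 : ρ ≤ 1) (hρ : ρ ^ 12 = 3 / 4)
    (hτ1 : 1 ≤ τ) (hτ : τ ^ 3 = 2) (hr : (r : ℝ) ^ 4 * ρ ^ r ≤ 1 / 2) :
    (numQ r : ℝ) / (numH r : ℝ) ≤ ((r : ℝ) ^ 3 + r + 1) * (2 * (r : ℝ) ^ Nat.log 2 r) / τ ^ r := by
  classical
  set S : Finset (Str r) := univ.filter (fun p : Str r => MulAx 0 p.1 ∧ WeakAdd 0 p.1 p.2 ∧ FullAdd 0 p.1 p.2) with hS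
  set F : ℕ := Set.ncard {C : Set (Str r) | ∃ p, Big p ∧ C = {q | IsQ q ∧ Iso p q}} with hF
  set g : ℕ := Fintype.card (E0 r) with hg
  set B : ℕ := r ^ Nat.log 2 r with hB
  have hgpos : 0 < g := Fintype.card_pos_iff.mpr ⟨⟨Equiv.refl _, rfl⟩⟩
  have h1 := numQ_le r
  have h2 : F * g ≤ B * S.card := by
    apply classes_le Big IsQ S
    · exact fun p hp => hp.good.1
    · intro p hp e
      rw [hS, mem_filter]
      exact ⟨mem_univ _, (hp.act e.1 e.2).good⟩
  have h3 : 1 * g ≤ B * S.card := by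
    obtain ⟨p, hp, hp'⟩ := exists_full r hr0
    have := orbit_lower {p} S (by
      intro q hq
      rw [mem_singleton] at hq
      subst hq
      exact hp.mulAx) (by
      intro q hq e
      rw [mem_singleton] at hq
      subst hq
      have h1 := hp.transport e.1
      have h2 := hp'.transport e.1
      rw [e.2] at h1 h2
      rw [hS, mem_filter]
      exact ⟨mem_univ _, h1.mulAx, h1.weakAdd, h2⟩) (by
      intro q hq q' hq' _
      rw [mem_singleton] at hq hq'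
      rw [hq, hq'])
    simpa using this
  have h4 := total_compare r ρ τ hρ0 hρ1 hρ hτ1 hτ hr
  rw [← hS] at h4
  have h5 := classes_ge (r := r) IsH (fun p hp => HypAx.mulAx hp)
  have h5' : ((univ.filter (fun p : Str r => HypAx 0 p.1 p.2)).card : ℝ) ≤ (numH r : ℝ) * g := by
    exact_mod_cast h5
  have hτpos : 0 < τ ^ r := by positivity
  have hgpos' : (0 : ℝ) < g := by exact_mod_cast hgpos
  have hB0 : (0 : ℝ) ≤ B := by positivity
  have key : ∀ x : ℝ, x * g ≤ B * S.card → τ ^ r * x ≤ 2 * B * numH r := by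
    intro x hx
    have h6 : τ ^ r * x * g ≤ 2 * B * numH r * g := by
      calc τ ^ r * x * g = τ ^ r * (x * g) := by ring
        _ ≤ τ ^ r * (B * S.card) := by gcongr
        _ = B * (τ ^ r * S.card) := by ring
        _ ≤ B * (2 * ((univ.filter (fun p : Str r => HypAx 0 p.1 p.2)).card : ℝ)) := by gcongr
        _ ≤ B * (2 * ((numH r : ℝ) * g)) := by gcongr
        _ = _ := by ring
    exact le_of_mul_le_mul_right h6 hgpos'
  have k1 := key F (by exact_mod_cast h2)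
  have k2 := key 1 (by exact_mod_cast h3)
  have hHpos : (0 : ℝ) < numH r := by
    have : 0 < τ ^ r * 1 := by linarith
    by_contra hcon
    have h0 : (numH r : ℝ) = 0 := le_antisymm (not_lt.mp hcon) (by positivity)
    rw [h0, mul_zero] at k2
    linarith
  rw [div_le_div_iff₀ hHpos hτpos]
  have h1' : (numQ r : ℝ) ≤ ((r : ℝ) ^ 3 + r) + F := by exact_mod_cast h1
  have hBr : (B : ℝ) = (r : ℝ) ^ Nat.log 2 r := by rw [hB]; push_cast; rfl
  calc (numQ r : ℝ) * τ ^ r ≤ (((r : ℝ) ^ 3 + r) + F) * τ ^ r := by gcongr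
    _ = ((r : ℝ) ^ 3 + r) * (τ ^ r * 1) + τ ^ r * F := by ring
    _ ≤ ((r : ℝ) ^ 3 + r) * (2 * B * numH r) + 2 * B * numH r := by gcongr
    _ = ((r : ℝ) ^ 3 + r + 1) * (2 * (r : ℝ) ^ Nat.log 2 r) * numH r := by rw [hBr]; ring

open Filter Topology

theorem tendsto_bound (τ : ℝ) (hτ : 1 < τ) :
    Tendsto (fun r : ℕ => ((r : ℝ) ^ 3 + r + 1) * (2 * (r : ℝ) ^ Nat.log 2 r) / τ ^ r) atTop (𝓝 0) := by
  have hlogτ : 0 < Real.log τ := Real.log_pos hτ
  have hlog2 : 0 < Real.log 2 := Real.log_pos (by norm_num)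
  have h1 : Tendsto (fun r : ℕ => Real.log 6 - (Real.log τ / 2) * (r : ℝ)) atTop atBot := by
    have h0 : Tendsto (fun r : ℕ => (Real.log τ / 2) * (r : ℝ)) atTop atTop :=
      Filter.Tendsto.const_mul_atTop (by positivity : 0 < Real.log τ / 2) tendsto_natCast_atTop_atTop
    have h0' : Tendsto (fun r : ℕ => -((Real.log τ / 2) * (r : ℝ))) atTop atBot :=
      tendsto_neg_atTop_atBot.comp h0
    exact (Filter.tendsto_atBot_add_const_left atTop (Real.log 6) h0').congr (fun r => by ring)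
  have h2 : Tendsto (fun r : ℕ => Real.exp (Real.log 6 - (Real.log τ / 2) * (r : ℝ))) atTop (𝓝 0) :=
    Real.tendsto_exp_atBot.comp h1
  refine squeeze_zero' (Eventually.of_forall fun r => by positivity) ?_ h2
  have ho1 : ∀ᶠ r : ℕ in atTop, 3 * Real.log r ≤ Real.log τ / 4 * r := by
    have := (Real.isLittleO_log_id_atTop.comp_tendsto (tendsto_natCast_atTop_atTop (R := ℝ))).def
      (c := Real.log τ / 12) (by positivity)
    filter_upwards [this, eventually_ge_atTop 1] with r hr hr1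
    simp only [Function.comp_apply, id_eq, Real.norm_eq_abs] at hr
    have h3 := (le_abs_self _).trans hr
    rw [abs_of_nonneg (by positivity : (0:ℝ) ≤ r)] at h3
    linarith
  have ho2 : ∀ᶠ r : ℕ in atTop, (Real.log r) ^ 2 / Real.log 2 ≤ Real.log τ / 4 * r := by
    have := ((Real.isLittleO_pow_log_id_atTop (n := 2)).comp_tendsto (tendsto_natCast_atTop_atTop (R := ℝ))).def
      (c := Real.log τ / 4 * Real.log 2) (by positivity)
    filter_upwards [this, eventually_ge_atTop 1] with r hr hr1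
    simp only [Function.comp_apply, id_eq, Real.norm_eq_abs] at hr
    have h3 := (le_abs_self _).trans hr
    rw [abs_of_nonneg (by positivity : (0:ℝ) ≤ r)] at h3
    rw [div_le_iff₀ hlog2]
    linarith
  filter_upwards [ho1, ho2, eventually_ge_atTop 1] with r hr1 hr2 hr3
  have hr : (1 : ℝ) ≤ r := by exact_mod_cast hr3
  have hrpos : (0 : ℝ) < r := by linarith
  have hlogr : 0 ≤ Real.log r := Real.log_nonneg hr
  have e1 : ((r : ℝ) ^ 3 + r + 1) * 2 ≤ Real.exp (Real.log 6 + 3 * Real.log r) := by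
    rw [Real.exp_add, Real.exp_log (by norm_num), mul_comm 3 (Real.log r), ← Real.rpow_def_of_pos hrpos]
    have : (r : ℝ) ^ (3 : ℝ) = (r : ℝ) ^ 3 := by norm_cast
    rw [this]
    have h4 : (r : ℝ) ≤ (r : ℝ) ^ 3 := by nlinarith [sq_nonneg ((r : ℝ) - 1), mul_pos hrpos hrpos]
    have h5 : (1 : ℝ) ≤ (r : ℝ) ^ 3 := one_le_pow₀ hr
    linarith
  have e2 : (r : ℝ) ^ Nat.log 2 r ≤ Real.exp ((Real.log r) ^ 2 / Real.log 2) := by
    have h4 : (Nat.log 2 r : ℝ) ≤ Real.logb 2 r := Real.natLog_le_logb r 2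
    have h5 : (r : ℝ) ^ Nat.log 2 r = Real.exp (Real.log r * (Nat.log 2 r : ℝ)) := by
      rw [← Real.rpow_natCast, Real.rpow_def_of_pos hrpos]
    rw [h5]
    apply Real.exp_le_exp.mpr
    calc Real.log r * (Nat.log 2 r : ℝ) ≤ Real.log r * Real.logb 2 r := by gcongr
      _ = (Real.log r) ^ 2 / Real.log 2 := by rw [Real.logb]; ring
  have e3 : τ ^ r = Real.exp (Real.log τ * r) := by
    rw [← Real.rpow_natCast, Real.rpow_def_of_pos (by linarith)]
  rw [e3, div_le_iff₀ (Real.exp_pos _)]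
  calc ((r : ℝ) ^ 3 + r + 1) * (2 * (r : ℝ) ^ Nat.log 2 r)
      = (((r : ℝ) ^ 3 + r + 1) * 2) * (r : ℝ) ^ Nat.log 2 r := by ring
    _ ≤ Real.exp (Real.log 6 + 3 * Real.log r) * Real.exp ((Real.log r) ^ 2 / Real.log 2) := by gcongr
    _ = Real.exp (Real.log 6 + 3 * Real.log r + (Real.log r) ^ 2 / Real.log 2) := by rw [← Real.exp_add]
    _ ≤ Real.exp ((Real.log 6 - (Real.log τ / 2) * (r : ℝ)) + Real.log τ * r) := by
        apply Real.exp_le_exp.mpr
        linarith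
    _ = _ := by rw [Real.exp_add]

theorem tendsto_numQ_div_numH :
    Tendsto (fun r : ℕ => (numQ r : ℝ) / (numH r : ℝ)) atTop (𝓝 0) := by
  set ρ : ℝ := (3 / 4 : ℝ) ^ ((12 : ℕ) : ℝ)⁻¹ with hρdef
  set τ : ℝ := (2 : ℝ) ^ ((3 : ℕ) : ℝ)⁻¹ with hτdef
  have hρ : ρ ^ 12 = 3 / 4 := Real.rpow_inv_natCast_pow (by norm_num) (by norm_num)
  have hτ : τ ^ 3 = 2 := Real.rpow_inv_natCast_pow (by norm_num) (by norm_num)
  have hρ0 : 0 ≤ ρ := by positivity
  have hρ1 : ρ < 1 := Real.rpow_lt_one (by norm_num) (by norm_num) (by norm_num)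
  have hτ1 : 1 < τ := Real.one_lt_rpow (by norm_num) (by norm_num)
  have h1 : ∀ᶠ r : ℕ in atTop, (r : ℝ) ^ 4 * ρ ^ r ≤ 1 / 2 := by
    have := tendsto_pow_const_mul_const_pow_of_lt_one 4 hρ0 hρ1
    exact this.eventually_le_const (by norm_num)
  refine squeeze_zero' (Eventually.of_forall fun r => by positivity) ?_ (tendsto_bound τ hτ1)
  filter_upwards [h1, eventually_gt_atTop 0] with r hr hr0
  exact main_bound r hr0 ρ τ hρ0 hρ1.le hρ hτ1.le hτ hr

end Pool.Agent.U96.QH
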