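import Mathlib

set_option autoImplicit false

/-!
# Counting Boolean functions avoiding many disjoint pairs
-/

namespace Pool.Agent.U96.QH

open Finset

section

variable {O A : Type*} [Fintype O] [DecidableEq O] [Fintype A] [DecidableEq A]

/-- pairwise disjointness of the pairs `{a w, b w}` -/
def ConflictFree (a b : A → O) (W : Finset A) : Prop :=
  ∀ w ∈ W, ∀ w' ∈ W, w ≠ w' → a w ≠ a w' ∧ a w ≠ b w' ∧ b w ≠ a w' ∧ b w ≠ b w'

theorem count_bad (a b : A → O) (W : Finset A) (hW : ConflictFree a b W) :
    4 ^ W.card * (univ.filter (fun g : O → Bool =>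
      ∀ w ∈ W, ¬ (g (a w) = true ∧ g (b w) = true))).card ≤ 3 ^ W.card * 2 ^ Fintype.card O := by
  classical
  induction W using Finset.induction_on with
  | empty => simp
  | insert v W hv ih =>
    have hW' : ConflictFree a b W := fun w hw w' hw' => hW w (mem_insert_of_mem hw) w' (mem_insert_of_mem hw')
    have ih' := ih hW'
    set E := univ.filter (fun g : O → Bool => ∀ w ∈ W, ¬ (g (a w) = true ∧ g (b w) = true)) with hE
    set E1 := E.filter (fun g : O → Bool => g (a v) = true ∧ g (b v) = true) with hE1
    have hEins : univ.filter (fun g : O → Bool =>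
        ∀ w ∈ insert v W, ¬ (g (a w) = true ∧ g (b w) = true)) =
        E.filter (fun g : O → Bool => ¬ (g (a v) = true ∧ g (b v) = true)) := by
      ext g
      simp only [hE, mem_filter, mem_univ, true_and, mem_insert, forall_eq_or_imp]
      tauto
    have hsplit : E1.card + (E.filter (fun g : O → Bool => ¬ (g (a v) = true ∧ g (b v) = true))).card
        = E.card := by
      rw [hE1]
      exact Finset.card_filter_add_card_filter_not _
    -- the map
    have hmap : E.card ≤ 4 * E1.card := by
      let φ : (O → Bool) → (O → Bool) := fun g => Function.update (Function.update g (a v) true) (b v) true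
      have hφ : ∀ g ∈ E, φ g ∈ E1 := by
        intro g hg
        simp only [hE1, hE, mem_filter, mem_univ, true_and] at hg ⊢
        refine ⟨?_, ?_, ?_⟩
        · intro w hw
          have hne : w ≠ v := fun h => hv (h ▸ hw)
          obtain ⟨h1, h2, h3, h4⟩ := hW w (mem_insert_of_mem hw) v (mem_insert_self _ _) hne
          have := hg w hw
          simp only [φ, Function.update_of_ne h2, Function.update_of_ne h1, Function.update_of_ne h3,
            Function.update_of_ne h4]
          exact this
        · by_cases h : a v = b v
          · simp [φ, h]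
          · simp [φ, Function.update_of_ne h]
        · simp [φ]
      have : E.card ≤ 4 * E1.card := by
        refine Finset.card_le_mul_card_image_of_maps_to hφ 4 ?_
        intro g' _
        have : ({g ∈ E | φ g = g'} : Finset (O → Bool)).card ≤ (univ : Finset (Bool × Bool)).card := by
          apply Finset.card_le_card_of_injOn (fun g => (g (a v), g (b v)))
          · intro _ _; simp
          · intro g1 h1 g2 h2 h12
            simp only [coe_filter, Set.mem_ofPred_eq] at h1 h2
            have h12' := Prod.mk.inj h12
            funext o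
            have := congrFun (h1.2.trans h2.2.symm) o
            by_cases ho : o = a v
            · rw [ho]; exact h12'.1
            · by_cases ho' : o = b v
              · rw [ho']; exact h12'.2
              · simpa [φ, Function.update_of_ne ho, Function.update_of_ne ho'] using this
        simpa using this
      exact this
    rw [hEins, card_insert_of_notMem hv, pow_succ, pow_succ]
    have h5 : 4 * (E.filter (fun g : O → Bool => ¬ (g (a v) = true ∧ g (b v) = true))).card ≤ 3 * E.card := by
      omega
    calc 4 ^ W.card * 4 * (E.filter (fun g : O → Bool => ¬ (g (a v) = true ∧ g (b v) = true))).card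
        = 4 ^ W.card * (4 * (E.filter (fun g : O → Bool => ¬ (g (a v) = true ∧ g (b v) = true))).card) := by ring
      _ ≤ 4 ^ W.card * (3 * E.card) := by gcongr
      _ = 3 * (4 ^ W.card * E.card) := by ring
      _ ≤ 3 * (3 ^ W.card * 2 ^ Fintype.card O) := by gcongr
      _ = 3 ^ W.card * 3 * 2 ^ Fintype.card O := by ring

omit [Fintype O] in
theorem exists_conflictFree (a b : A → O) (k : ℕ)
    (ha : ∀ o, (univ.filter (fun w => a w = o)).card ≤ k)
    (hb : ∀ o, (univ.filter (fun w => b w = o)).card ≤ k) :
    ∃ W : Finset A, ConflictFree a b W ∧ Fintype.card A ≤ 4 * k * W.card := by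
  classical
  have hne : (univ.filter (fun W : Finset A => ConflictFree a b W)).Nonempty :=
    ⟨∅, by rw [mem_filter]; exact ⟨mem_univ _, fun w hw => absurd hw (notMem_empty _)⟩⟩
  obtain ⟨W, hW, hmax⟩ := Finset.exists_max_image _ (fun W : Finset A => W.card) hne
  simp only [mem_filter, mem_univ, true_and] at hW hmax
  refine ⟨W, hW, ?_⟩
  have hcover : (univ : Finset A) ⊆ W.biUnion (fun w' =>
      (univ.filter (fun w => a w = a w') ∪ univ.filter (fun w => a w = b w')) ∪
      (univ.filter (fun w => b w = a w') ∪ univ.filter (fun w => b w = b w'))) := by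
    intro w _
    by_contra hcon
    simp only [mem_biUnion, mem_union, mem_filter, mem_univ, true_and, not_exists, not_and, not_or] at hcon
    have hwW : w ∉ W := fun h => (hcon w h).1.1 rfl
    have hcf : ConflictFree a b (insert w W) := by
      intro x hx y hy hxy
      rw [mem_insert] at hx hy
      rcases hx with rfl | hx
      · rcases hy with rfl | hy
        · exact absurd rfl hxy
        · obtain ⟨⟨h1, h2⟩, h3, h4⟩ := hcon y hy
          exact ⟨h1, h2, h3, h4⟩
      · rcases hy with rfl | hy
        · obtain ⟨⟨h1, h2⟩, h3, h4⟩ := hcon x hx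
          exact ⟨Ne.symm h1, Ne.symm h3, Ne.symm h2, Ne.symm h4⟩
        · exact hW x hx y hy hxy
    have := hmax _ hcf
    rw [card_insert_of_notMem hwW] at this
    omega
  calc Fintype.card A = (univ : Finset A).card := (card_univ).symm
    _ ≤ _ := card_le_card hcover
    _ ≤ ∑ w' ∈ W, ((univ.filter (fun w => a w = a w') ∪ univ.filter (fun w => a w = b w')) ∪
      (univ.filter (fun w => b w = a w') ∪ univ.filter (fun w => b w = b w'))).card := card_biUnion_le
    _ ≤ ∑ w' ∈ W, 4 * k := by
        apply sum_le_sum
        intro w' _
        refine (card_union_le _ _).trans ?_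
        have h1 := card_union_le (univ.filter (fun w => a w = a w')) (univ.filter (fun w => a w = b w'))
        have h2 := card_union_le (univ.filter (fun w => b w = a w')) (univ.filter (fun w => b w = b w'))
        have := ha (a w'); have := ha (b w'); have := hb (a w'); have := hb (b w')
        omega
    _ = 4 * k * W.card := by simp [mul_comm]

/-- number of Boolean functions which are never simultaneously true on `a w`, `b w` -/
theorem count_bad_real (a b : A → O)
    (ha : ∀ o, (univ.filter (fun w => a w = o)).card ≤ 3)
    (hb : ∀ o, (univ.filter (fun w => b w = o)).card ≤ 3) (ρ : ℝ) (hρ0 : 0 ≤ ρ) (hρ1 : ρ ≤ 1)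
    (hρ : ρ ^ 12 = 3 / 4) :
    ((univ.filter (fun g : O → Bool =>
      ∀ w, ¬ (g (a w) = true ∧ g (b w) = true))).card : ℝ) ≤ ρ ^ Fintype.card A * 2 ^ Fintype.card O := by
  obtain ⟨W, hW, hcard⟩ := exists_conflictFree a b 3 ha hb
  have h1 := count_bad a b W hW
  have h2 : (univ.filter (fun g : O → Bool => ∀ w, ¬ (g (a w) = true ∧ g (b w) = true))).card ≤
      (univ.filter (fun g : O → Bool => ∀ w ∈ W, ¬ (g (a w) = true ∧ g (b w) = true))).card := by
    apply card_le_card
    intro g hg
    simp only [mem_filter, mem_univ, true_and] at hg ⊢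
    exact fun w _ => hg w
  have h3 : (4 : ℝ) ^ W.card * ((univ.filter (fun g : O → Bool => ∀ w, ¬ (g (a w) = true ∧ g (b w) = true))).card : ℝ)
      ≤ 3 ^ W.card * 2 ^ Fintype.card O := by
    calc (4 : ℝ) ^ W.card * ((univ.filter (fun g : O → Bool => ∀ w, ¬ (g (a w) = true ∧ g (b w) = true))).card : ℝ)
        ≤ (4 : ℝ) ^ W.card * ((univ.filter (fun g : O → Bool => ∀ w ∈ W, ¬ (g (a w) = true ∧ g (b w) = true))).card : ℝ) := by
          gcongr
      _ ≤ 3 ^ W.card * 2 ^ Fintype.card O := by exact_mod_cast h1
  have h4 : ((univ.filter (fun g : O → Bool => ∀ w, ¬ (g (a w) = true ∧ g (b w) = true))).card : ℝ)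
      ≤ (3 / 4) ^ W.card * 2 ^ Fintype.card O := by
    rw [div_pow, div_mul_eq_mul_div, le_div_iff₀ (by positivity)]
    linarith
  refine h4.trans ?_
  gcongr
  rw [← hρ, ← pow_mul]
  apply pow_le_pow_of_le_one hρ0 hρ1
  omega

omit [DecidableEq A] in
/-- functions which are true on the range of `c` -/
theorem count_full (c : A → O) (hc : ∀ o, (univ.filter (fun w => c w = o)).card ≤ 3)
    (τ : ℝ) (hτ1 : 1 ≤ τ) (hτ : τ ^ 3 = 2) :
    τ ^ Fintype.card A * ((univ.filter (fun g : O → Bool => ∀ w, g (c w) = true)).card : ℝ)
      ≤ 2 ^ Fintype.card O := by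
  classical
  set R : Finset O := univ.image c with hR
  have h1 : Fintype.card A ≤ 3 * R.card := by
    rw [← card_univ]
    exact Finset.card_le_mul_card_image (f := c) univ 3 (fun o _ => hc o)
  have h2 : 2 ^ R.card * (univ.filter (fun g : O → Bool => ∀ w, g (c w) = true)).card
      ≤ 2 ^ Fintype.card O := by
    have : (R.powerset ×ˢ (univ.filter (fun g : O → Bool => ∀ w, g (c w) = true))).card
        ≤ (univ : Finset (O → Bool)).card := by
      apply Finset.card_le_card_of_injOn
        (fun x => fun o => if o ∈ R then decide (o ∈ x.1) else x.2 o)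
      · intro _ _; simp
      · rintro ⟨s, g⟩ h1 ⟨t, h⟩ h2 heq
        simp only [coe_product, coe_powerset, coe_filter, mem_univ, true_and, Set.mem_prod,
          Set.mem_preimage, Set.mem_powerset_iff, coe_subset, Set.mem_ofPred_eq] at h1 h2
        have hs : s = t := by
          ext o
          have := congrFun heq o
          by_cases ho : o ∈ R
          · simpa [ho] using this
          · constructor
            · intro h'; exact absurd (h1.1 h') ho
            · intro h'; exact absurd (h2.1 h') ho
        have hg : g = h := by
          funext o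
          have := congrFun heq o
          by_cases ho : o ∈ R
          · obtain ⟨w, -, rfl⟩ := mem_image.mp ho
            rw [h1.2 w, h2.2 w]
          · simpa [ho] using this
        rw [hs, hg]
    rw [card_product, card_powerset, card_univ, Fintype.card_fun] at this
    simpa using this
  have h3 : τ ^ Fintype.card A ≤ 2 ^ R.card := by
    rw [← hτ, ← pow_mul]
    exact pow_le_pow_right₀ hτ1 h1
  calc τ ^ Fintype.card A * ((univ.filter (fun g : O → Bool => ∀ w, g (c w) = true)).card : ℝ)
      ≤ 2 ^ R.card * ((univ.filter (fun g : O → Bool => ∀ w, g (c w) = true)).card : ℝ) := by gcongr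
    _ ≤ 2 ^ Fintype.card O := by exact_mod_cast h2

end

end Pool.Agent.U96.QH
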