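import Mathlib

set_option autoImplicit false

/-!
# Hyperfield structures on `Fin (r+1)`: definitions, transport, and decoding
-/

namespace Pool.Agent.U96.QH

open Finset

/-- multiplicative axioms -/
def MulAx {X : Type} (z : X) (mul : X → X → X) : Prop :=
  (∃ u : X, u ≠ z ∧ ∀ a, mul u a = a) ∧
  (∀ a b, mul a b = mul b a) ∧
  (∀ a b c, mul (mul a b) c = mul a (mul b c)) ∧
  (∀ a, mul z a = z) ∧
  (∀ a b, a ≠ z → b ≠ z → mul a b ≠ z) ∧
  (∀ a, a ≠ z → ∃ b, ∀ c, mul (mul a b) c = c)

/-- additive axioms without nonemptiness and associativity -/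
def WeakAdd {X : Type} (z : X) (mul : X → X → X) (add : X → X → Set X) : Prop :=
  (∀ a b, add a b = add b a) ∧
  (∀ a, add z a = {a}) ∧
  (∀ a, ∃! b, z ∈ add a b) ∧
  (∀ a b c d, a ∈ add b c → z ∈ add b d → c ∈ add a d) ∧
  (∀ a b c, (fun x => mul a x) '' add b c = add (mul a b) (mul a c))

/-- all axioms, in the order of the frozen statement -/
def HypAx {X : Type} (z : X) (mul : X → X → X) (add : X → X → Set X) : Prop :=
  (∃ u : X, u ≠ z ∧ ∀ a, mul u a = a) ∧
  (∀ a b, mul a b = mul b a) ∧
  (∀ a b c, mul (mul a b) c = mul a (mul b c)) ∧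
  (∀ a, mul z a = z) ∧
  (∀ a b, a ≠ z → b ≠ z → mul a b ≠ z) ∧
  (∀ a, a ≠ z → ∃ b, ∀ c, mul (mul a b) c = c) ∧
  (∀ a b, (add a b).Nonempty) ∧
  (∀ a b, add a b = add b a) ∧
  (∀ a b c, (⋃ x ∈ add a b, add x c) = ⋃ x ∈ add b c, add a x) ∧
  (∀ a, add z a = {a}) ∧
  (∀ a, ∃! b, z ∈ add a b) ∧
  (∀ a b c d, a ∈ add b c → z ∈ add b d → c ∈ add a d) ∧
  (∀ a b c, (fun x => mul a x) '' add b c = add (mul a b) (mul a c))

theorem HypAx.mulAx {X : Type} {z : X} {mul : X → X → X} {add : X → X → Set X}
    (h : HypAx z mul add) : MulAx z mul :=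
  ⟨h.1, h.2.1, h.2.2.1, h.2.2.2.1, h.2.2.2.2.1, h.2.2.2.2.2.1⟩

theorem HypAx.weakAdd {X : Type} {z : X} {mul : X → X → X} {add : X → X → Set X}
    (h : HypAx z mul add) : WeakAdd z mul add := by
  obtain ⟨h1, h2, h3, h4, h5, h6, h7, h8, h9, h10, h11, h12, h13⟩ := h
  exact ⟨h8, h10, h11, h12, h13⟩

/-- `1 ⊞ (-1)` is everything -/
def FullAdd {X : Type} (z : X) (mul : X → X → X) (add : X → X → Set X) : Prop :=
  ∀ u v, (∀ a, mul u a = a) → z ∈ add u v → add u v = Set.univ

section transport

variable {X Y : Type} (e : X ≃ Y)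

def tmul (mul : X → X → X) : Y → Y → Y := fun a b => e (mul (e.symm a) (e.symm b))
def tadd (add : X → X → Set X) : Y → Y → Set Y := fun a b => e '' add (e.symm a) (e.symm b)

@[simp] theorem tmul_apply (mul : X → X → X) (a b : X) : tmul e mul (e a) (e b) = e (mul a b) := by
  simp [tmul]
@[simp] theorem tadd_apply (add : X → X → Set X) (a b : X) : tadd e add (e a) (e b) = e '' (add a b) := by
  simp [tadd]

theorem HypAx.transport {z : X} {mul : X → X → X} {add : X → X → Set X} (h : HypAx z mul add) :
    HypAx (e z) (tmul e mul) (tadd e add) := by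
  obtain ⟨h1, h2, h3, h4, h5, h6, h7, h8, h9, h10, h11, h12, h13⟩ := h
  have hmem : ∀ (x : X) (S : Set X), e x ∈ e '' S ↔ x ∈ S := fun x S => e.injective.mem_set_image
  refine ⟨?_, ?_, ?_, ?_, ?_, ?_, ?_, ?_, ?_, ?_, ?_, ?_, ?_⟩
  · obtain ⟨u, hu, hu'⟩ := h1
    refine ⟨e u, fun h => hu (e.injective h), fun a => ?_⟩
    obtain ⟨a, rfl⟩ := e.surjective a
    rw [tmul_apply, hu']
  · intro a b
    obtain ⟨a, rfl⟩ := e.surjective a
    obtain ⟨b, rfl⟩ := e.surjective b
    rw [tmul_apply, tmul_apply, h2]
  · intro a b c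
    obtain ⟨a, rfl⟩ := e.surjective a
    obtain ⟨b, rfl⟩ := e.surjective b
    obtain ⟨c, rfl⟩ := e.surjective c
    simp only [tmul_apply, h3]
  · intro a
    obtain ⟨a, rfl⟩ := e.surjective a
    simp only [tmul_apply, h4]
  · intro a b
    obtain ⟨a, rfl⟩ := e.surjective a
    obtain ⟨b, rfl⟩ := e.surjective b
    intro ha hb hab
    rw [tmul_apply] at hab
    exact h5 a b (fun h => ha (by rw [h])) (fun h => hb (by rw [h])) (e.injective hab)
  · intro a ha
    obtain ⟨a, rfl⟩ := e.surjective a
    obtain ⟨b, hb⟩ := h6 a (fun h => ha (by rw [h]))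
    refine ⟨e b, fun c => ?_⟩
    obtain ⟨c, rfl⟩ := e.surjective c
    simp only [tmul_apply, hb]
  · intro a b
    obtain ⟨a, rfl⟩ := e.surjective a
    obtain ⟨b, rfl⟩ := e.surjective b
    rw [tadd_apply]
    exact (h7 a b).image _
  · intro a b
    obtain ⟨a, rfl⟩ := e.surjective a
    obtain ⟨b, rfl⟩ := e.surjective b
    rw [tadd_apply, tadd_apply, h8]
  · intro a b c
    obtain ⟨a, rfl⟩ := e.surjective a
    obtain ⟨b, rfl⟩ := e.surjective b
    obtain ⟨c, rfl⟩ := e.surjective c
    have h := h9 a b c
    rw [tadd_apply, tadd_apply]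
    rw [Set.biUnion_image, Set.biUnion_image]
    simp only [tadd_apply]
    rw [← Set.image_iUnion₂, ← Set.image_iUnion₂, h]
  · intro a
    obtain ⟨a, rfl⟩ := e.surjective a
    rw [tadd_apply, h10, Set.image_singleton]
  · intro a
    obtain ⟨a, rfl⟩ := e.surjective a
    obtain ⟨b, hb, hb'⟩ := h11 a
    refine ⟨e b, ?_, ?_⟩
    · simp only [tadd_apply, hmem]; exact hb
    · intro c hc
      obtain ⟨c, rfl⟩ := e.surjective c
      simp only [tadd_apply, hmem] at hc
      rw [hb' c hc]
  · intro a b c d
    obtain ⟨a, rfl⟩ := e.surjective a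
    obtain ⟨b, rfl⟩ := e.surjective b
    obtain ⟨c, rfl⟩ := e.surjective c
    obtain ⟨d, rfl⟩ := e.surjective d
    simp only [tadd_apply, hmem]
    exact h12 a b c d
  · intro a b c
    obtain ⟨a, rfl⟩ := e.surjective a
    obtain ⟨b, rfl⟩ := e.surjective b
    obtain ⟨c, rfl⟩ := e.surjective c
    simp only [tadd_apply, tmul_apply]
    rw [← h13 a b c, Set.image_image, Set.image_image]
    simp only [tmul_apply]

theorem WeakAdd.transport {z : X} {mul : X → X → X} {add : X → X → Set X} (h : WeakAdd z mul add) :
    WeakAdd (e z) (tmul e mul) (tadd e add) := by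
  obtain ⟨h8, h10, h11, h12, h13⟩ := h
  have hmem : ∀ (x : X) (S : Set X), e x ∈ e '' S ↔ x ∈ S := fun x S => e.injective.mem_set_image
  refine ⟨?_, ?_, ?_, ?_, ?_⟩
  · intro a b
    obtain ⟨a, rfl⟩ := e.surjective a
    obtain ⟨b, rfl⟩ := e.surjective b
    rw [tadd_apply, tadd_apply, h8]
  · intro a
    obtain ⟨a, rfl⟩ := e.surjective a
    rw [tadd_apply, h10, Set.image_singleton]
  · intro a
    obtain ⟨a, rfl⟩ := e.surjective a
    obtain ⟨b, hb, hb'⟩ := h11 a
    refine ⟨e b, ?_, ?_⟩
    · simp only [tadd_apply, hmem]; exact hb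
    · intro c hc
      obtain ⟨c, rfl⟩ := e.surjective c
      simp only [tadd_apply, hmem] at hc
      rw [hb' c hc]
  · intro a b c d
    obtain ⟨a, rfl⟩ := e.surjective a
    obtain ⟨b, rfl⟩ := e.surjective b
    obtain ⟨c, rfl⟩ := e.surjective c
    obtain ⟨d, rfl⟩ := e.surjective d
    simp only [tadd_apply, hmem]
    exact h12 a b c d
  · intro a b c
    obtain ⟨a, rfl⟩ := e.surjective a
    obtain ⟨b, rfl⟩ := e.surjective b
    obtain ⟨c, rfl⟩ := e.surjective c
    simp only [tadd_apply, tmul_apply]
    rw [← h13 a b c, Set.image_image, Set.image_image]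
    simp only [tmul_apply]

theorem FullAdd.transport {z : X} {mul : X → X → X} {add : X → X → Set X} (h : FullAdd z mul add) :
    FullAdd (e z) (tmul e mul) (tadd e add) := by
  intro u v hu hv
  obtain ⟨u, rfl⟩ := e.surjective u
  obtain ⟨v, rfl⟩ := e.surjective v
  have hu' : ∀ a, mul u a = a := by
    intro a
    have := hu (e a)
    rw [tmul_apply] at this
    exact e.injective this
  rw [tadd_apply, e.injective.mem_set_image] at hv
  rw [tadd_apply, h u v hu' hv, Set.image_univ, e.surjective.range_eq]

@[simp] theorem tmul_symm_tmul (mul : X → X → X) : tmul e.symm (tmul e mul) = mul := by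
  funext a b; simp [tmul]
@[simp] theorem tadd_symm_tadd (add : X → X → Set X) : tadd e.symm (tadd e add) = add := by
  funext a b; simp [tadd, Set.image_image]
@[simp] theorem tadd_tadd_symm (add : Y → Y → Set Y) : tadd e (tadd e.symm add) = add := by
  funext a b; simp [tadd, Set.image_image]

end transport

section orbits

variable {A : Type} [CommGroup A]

/-- elementary moves on triples -/
inductive Mv : A × A × A → A × A × A → Prop
  | swap (x y z : A) : Mv (x, y, z) (y, x, z)
  | rot (x y z : A) : Mv (x, y, z) (z, y, x)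
  | scale (l x y z : A) : Mv (x, y, z) (l * x, l * y, l * z)

variable (A) in
/-- triples up to permutation and scaling -/
def Orb := Quot (Mv (A := A))

def orb (x y z : A) : Orb A := Quot.mk _ (x, y, z)

instance [Finite A] : Finite (Orb A) := by unfold Orb; infer_instance

theorem orb_swap (x y z : A) : orb x y z = orb y x z := Quot.sound (Mv.swap x y z)
theorem orb_rot (x y z : A) : orb x y z = orb z y x := Quot.sound (Mv.rot x y z)
theorem orb_scale (l x y z : A) : orb (l * x) (l * y) (l * z) = orb x y z :=
  (Quot.sound (Mv.scale l x y z)).symm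

def kap (t : A × A × A) : Set (Multiset A) :=
  {s | ∃ l : A, s = {l * t.1, l * t.2.1, l * t.2.2}}

theorem kap_mv (t t' : A × A × A) (h : Mv t t') : kap t = kap t' := by
  cases h with
  | swap x y z =>
    ext s
    simp only [kap, Set.mem_ofPred_eq]
    constructor
    · rintro ⟨l, rfl⟩
      exact ⟨l, by simp only [Multiset.insert_eq_cons]; rw [Multiset.cons_swap]⟩
    · rintro ⟨l, rfl⟩
      exact ⟨l, by simp only [Multiset.insert_eq_cons]; rw [Multiset.cons_swap]⟩
  | rot x y z =>
    have key : ∀ a b c : A, ({a, b, c} : Multiset A) = {c, b, a} := by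
      intro a b c
      simp only [Multiset.insert_eq_cons]
      rw [Multiset.cons_swap, ← Multiset.cons_zero c, ← Multiset.cons_zero a, Multiset.cons_swap a c,
        Multiset.cons_swap b c]
    ext s
    simp only [kap, Set.mem_ofPred_eq]
    constructor
    · rintro ⟨l, rfl⟩
      exact ⟨l, key _ _ _⟩
    · rintro ⟨l, rfl⟩
      exact ⟨l, key _ _ _⟩
  | scale l x y z =>
    ext s
    simp only [kap, Set.mem_ofPred_eq]
    constructor
    · rintro ⟨k, rfl⟩
      refine ⟨k * l⁻¹, ?_⟩
      simp [mul_assoc]
    · rintro ⟨k, rfl⟩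
      refine ⟨k * l, ?_⟩
      simp [mul_assoc]

theorem orb_eq_imp {x y z z' : A} (h : orb x y z' = orb x y z) :
    z' = z ∨ z' = (x * y⁻¹) ^ 3 * z ∨ z' = (x * z⁻¹) ^ 3 * z := by
  have h1 : kap (x, y, z') = kap (x, y, z) :=
    congrArg (Quot.lift kap kap_mv) h
  have h2 : ({x, y, z'} : Multiset A) ∈ kap (x, y, z) := by
    rw [← h1]
    exact ⟨1, by simp⟩
  obtain ⟨l, hl⟩ := h2
  simp only at hl
  have hprod : x * (y * z') = l * x * (l * y * (l * z)) := by
    have := congrArg Multiset.prod hl
    simpa using this
  have hz' : z' = l ^ 3 * z := by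
    have : x * y * z' = x * y * (l ^ 3 * z) := by
      rw [mul_assoc, hprod]
      simp only [pow_succ, pow_zero, one_mul]
      simp only [mul_left_comm, mul_comm]
    exact mul_left_cancel this
  have hx : x ∈ ({l * x, l * y, l * z} : Multiset A) := by
    rw [← hl]; simp
  simp only [Multiset.insert_eq_cons, Multiset.mem_cons, Multiset.mem_singleton] at hx
  rcases hx with hx | hx | hx
  · left
    have : l = 1 := by
      have : 1 * x = l * x := by rw [one_mul]; exact hx
      exact (mul_right_cancel this).symm
    rw [hz', this]; simp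
  · right; left
    have : l = x * y⁻¹ := by rw [hx]; simp
    rw [hz', this]
  · right; right
    have : l = x * z⁻¹ := by rw [hx]; simp
    rw [hz', this]

theorem orb_fibre [Fintype A] [DecidableEq A] [DecidableEq (Orb A)] (x y : A) (o : Orb A) :
    (univ.filter (fun z => orb x y z = o)).card ≤ 3 := by
  by_cases hne : (univ.filter (fun z => orb x y z = o)).Nonempty
  · obtain ⟨z, hz⟩ := hne
    rw [mem_filter] at hz
    have : (univ.filter (fun z => orb x y z = o)) ⊆ {z, (x * y⁻¹) ^ 3 * z, (x * z⁻¹) ^ 3 * z} := by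
      intro z' hz'
      rw [mem_filter] at hz'
      have := orb_eq_imp (hz'.2.trans hz.2.symm)
      simpa using this
    exact (card_le_card this).trans Finset.card_le_three
  · rw [not_nonempty_iff_eq_empty] at hne
    rw [hne]; simp

/-- the fibres of `w ↦ [x,y,c w]` -/
theorem orb_fibre_mul [Fintype A] [DecidableEq A] [DecidableEq (Orb A)] (c x y : A) (o : Orb A) :
    (univ.filter (fun w => orb x y (c * w) = o)).card ≤ 3 := by
  refine le_trans ?_ (orb_fibre x y o)
  apply Finset.card_le_card_of_injOn (fun w => c * w)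
  · intro w hw
    simpa using hw
  · intro w _ w' _ h
    exact mul_left_cancel h

theorem orb_fibre_fst [Fintype A] [DecidableEq A] [DecidableEq (Orb A)] (y z : A) (o : Orb A) :
    (univ.filter (fun w => orb w y z = o)).card ≤ 3 := by
  refine le_trans ?_ (orb_fibre z y o)
  apply Finset.card_le_card
  intro w hw
  rw [mem_filter] at hw ⊢
  rw [orb_rot]
  exact hw

end orbits

section decode

variable {A : Type} [CommGroup A]

def dmul : Option A → Option A → Option A
  | some x, some y => some (x * y)
  | _, _ => none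

def dadd (ε : A) (g : Orb A → Bool) : Option A → Option A → Set (Option A)
  | none, y => {y}
  | some x, none => {some x}
  | some x, some y => {w | (w = none ∧ y = ε * x) ∨ ∃ w', w = some w' ∧ g (orb x y (ε * w')) = true}

/-- richness: every nonzero element is in every `(x ⊞ y) ⊞ z` -/
def Rich (ε : A) (g : Orb A → Bool) : Prop :=
  ∀ x y z u : A, ∃ w : A, g (orb x y (ε * w)) = true ∧ g (orb w z (ε * u)) = true

@[simp] theorem dmul_some (x y : A) : dmul (some x) (some y) = some (x * y) := rfl
@[simp] theorem dmul_none_left (y : Option A) : dmul none y = none := by cases y <;> rfl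
@[simp] theorem dmul_none_right (y : Option A) : dmul y none = none := by cases y <;> rfl
@[simp] theorem dadd_none_left (ε : A) (g : Orb A → Bool) (y : Option A) : dadd ε g none y = {y} := by
  cases y <;> rfl
@[simp] theorem dadd_none_right (ε : A) (g : Orb A → Bool) (y : Option A) : dadd ε g y none = {y} := by
  cases y <;> rfl
@[simp] theorem none_mem_dadd (ε : A) (g : Orb A → Bool) (x y : A) :
    none ∈ dadd ε g (some x) (some y) ↔ y = ε * x := by
  simp [dadd]
@[simp] theorem some_mem_dadd (ε : A) (g : Orb A → Bool) (x y w : A) :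
    some w ∈ dadd ε g (some x) (some y) ↔ g (orb x y (ε * w)) = true := by
  simp [dadd]

theorem dadd_comm {ε : A} (hε : ε * ε = 1) (g : Orb A → Bool) (a b : Option A) :
    dadd ε g a b = dadd ε g b a := by
  rcases a with _ | x
  · simp
  rcases b with _ | y
  · simp
  ext w
  rcases w with _ | w
  · simp only [none_mem_dadd]
    constructor
    · rintro rfl; rw [← mul_assoc, hε, one_mul]
    · rintro rfl; rw [← mul_assoc, hε, one_mul]
  · simp only [some_mem_dadd]
    rw [orb_swap]

theorem mem_triple {ε : A} (hε : ε * ε = 1) {g : Orb A → Bool} (hg : Rich ε g) (x y z : A)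
    (t : Option A) : t ∈ (⋃ w ∈ dadd ε g (some x) (some y), dadd ε g w (some z)) ↔
      (t = none → g (orb x y z) = true) := by
  simp only [Set.mem_iUnion, exists_prop]
  rcases t with _ | u
  · simp only [forall_const]
    constructor
    · rintro ⟨w, hw, hw'⟩
      rcases w with _ | w
      · simp at hw'
      · rw [some_mem_dadd] at hw
        rw [none_mem_dadd] at hw'
        rw [hw']; exact hw
    · intro h
      refine ⟨some (ε * z), ?_, ?_⟩
      · rw [some_mem_dadd, ← mul_assoc, hε, one_mul]; exact h
      · rw [none_mem_dadd, ← mul_assoc, hε, one_mul]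
  · simp only [reduceCtorEq, false_imp_iff, iff_true]
    obtain ⟨w, hw, hw'⟩ := hg x y z u
    exact ⟨some w, by simpa using hw, by simpa using hw'⟩

theorem hypAx_dec {ε : A} (hε : ε * ε = 1) {g : Orb A → Bool} (hg : Rich ε g) :
    HypAx (none : Option A) dmul (dadd ε g) := by
  refine ⟨?_, ?_, ?_, ?_, ?_, ?_, ?_, ?_, ?_, ?_, ?_, ?_, ?_⟩
  · exact ⟨some 1, by simp, fun a => by cases a <;> simp⟩
  · intro a b; cases a <;> cases b <;> simp [mul_comm]
  · intro a b c; cases a <;> cases b <;> cases c <;> simp [mul_assoc]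
  · intro a; simp
  · intro a b; cases a <;> cases b <;> simp
  · intro a ha
    rcases a with _ | x
    · exact absurd rfl ha
    · refine ⟨some x⁻¹, fun c => ?_⟩
      cases c <;> simp
  · intro a b
    rcases a with _ | x
    · simp
    rcases b with _ | y
    · simp
    obtain ⟨w, hw, -⟩ := hg x y 1 1
    exact ⟨some w, by simpa using hw⟩
  · exact dadd_comm hε g
  · intro a b c
    rcases a with _ | x
    · simp
    rcases b with _ | y
    · simp
    rcases c with _ | z
    · simp
    ext t
    rw [mem_triple hε hg]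
    have : (⋃ w ∈ dadd ε g (some y) (some z), dadd ε g (some x) w)
        = (⋃ w ∈ dadd ε g (some y) (some z), dadd ε g w (some x)) := by
      simp only [dadd_comm hε g (some x)]
    rw [this, mem_triple hε hg]
    rw [orb_swap x y z, orb_rot y x z, orb_swap z x y, orb_rot x z y]
  · intro a; simp
  · intro a
    rcases a with _ | x
    · refine ⟨none, by simp, ?_⟩
      intro b hb
      simpa using hb.symm
    · refine ⟨some (ε * x), by simp, ?_⟩
      intro b hb
      rcases b with _ | y
      · simp at hb
      · simp only [none_mem_dadd] at hb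
        rw [hb]
  · intro a b c d h1 h2
    rcases b with _ | y
    · rw [dadd_none_left] at h1 h2
      rw [Set.mem_singleton_iff] at h1 h2
      subst h1
      rw [← h2]
      simp
    · rcases d with _ | v
      · simp at h2
      · rw [none_mem_dadd] at h2
        subst h2
        rcases c with _ | z
        · rw [dadd_none_right, Set.mem_singleton_iff] at h1
          subst h1
          simp
        · rcases a with _ | x
          · rw [none_mem_dadd] at h1
            rw [h1]; simp
          · rw [some_mem_dadd] at h1 ⊢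
            rw [← h1]
            congr 1
            rw [← orb_scale ε y z (ε * x), ← mul_assoc ε ε x, hε, one_mul, orb_rot, orb_swap]
  · intro a b c
    rcases a with _ | x
    · have hne : (dadd ε g b c).Nonempty := by
        rcases b with _ | y
        · simp
        rcases c with _ | z
        · simp
        obtain ⟨w, hw, -⟩ := hg y z 1 1
        exact ⟨some w, by simpa using hw⟩
      simp only [dmul_none_left, dadd_none_left]
      exact hne.image_const _
    · rcases b with _ | y
      · simp
      rcases c with _ | z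
      · simp
      ext t
      rcases t with _ | t
      · simp only [Set.mem_image, dmul_some, none_mem_dadd]
        constructor
        · rintro ⟨w, hw, hw'⟩
          rcases w with _ | w
          · rw [none_mem_dadd] at hw
            rw [hw, mul_left_comm]
          · simp at hw'
        · intro h
          refine ⟨none, ?_, by simp⟩
          rw [none_mem_dadd]
          rw [mul_left_comm] at h
          exact mul_left_cancel h
      · simp only [Set.mem_image, dmul_some, some_mem_dadd]
        constructor
        · rintro ⟨w, hw, hw'⟩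
          rcases w with _ | w
          · simp at hw'
          · rw [some_mem_dadd] at hw
            rw [dmul_some, Option.some_inj] at hw'
            rw [← hw', mul_left_comm ε x w, orb_scale]
            exact hw
        · intro h
          refine ⟨some (x⁻¹ * t), ?_, by simp⟩
          rw [some_mem_dadd, ← orb_scale x, ← h]
          congr 2
          rw [mul_left_comm ε, mul_inv_cancel_left]

theorem exists_encode {add : Option A → Option A → Set (Option A)}
    (h : WeakAdd (none : Option A) dmul add) :
    ∃ (ε : A) (g : Orb A → Bool), ε * ε = 1 ∧ add = dadd ε g ∧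
      (FullAdd (none : Option A) dmul add → ∀ w, g (orb 1 ε w) = true) := by
  classical
  obtain ⟨hcomm, hzero, huniq, hrev, hdist⟩ := h
  have hzero' : ∀ a, add a none = {a} := fun a => by rw [hcomm, hzero]
  obtain ⟨b, hb, -⟩ := huniq (some 1)
  obtain ⟨ε, rfl⟩ : ∃ ε, b = some ε := by
    rcases b with _ | ε
    · simp [hzero'] at hb
    · exact ⟨ε, rfl⟩
  have hscale : ∀ l x y t : A, some t ∈ add (some x) (some y) ↔
      some (l * t) ∈ add (some (l * x)) (some (l * y)) := by
    intro l x y t
    have h1 := hdist (some l) (some x) (some y)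
    rw [dmul_some, dmul_some] at h1
    rw [← h1]
    constructor
    · intro h
      exact ⟨some t, h, rfl⟩
    · rintro ⟨w, hw, hw'⟩
      rcases w with _ | w
      · simp at hw'
      · simp only [dmul_some, Option.some_inj, mul_right_inj] at hw'
        rw [← hw']; exact hw
  have hscale0 : ∀ l x y : A, none ∈ add (some x) (some y) →
      none ∈ add (some (l * x)) (some (l * y)) := by
    intro l x y h
    have h1 := hdist (some l) (some x) (some y)
    rw [dmul_some, dmul_some] at h1
    rw [← h1]
    exact ⟨none, h, by simp⟩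
  have hε : ε * ε = 1 := by
    have h1 := hscale0 ε _ _ hb
    have h2 : none ∈ add (some ε) (some 1) := by rw [hcomm]; exact hb
    rw [mul_one] at h1
    obtain ⟨c, -, hc⟩ := huniq (some ε)
    have h3 := (hc _ h1).trans (hc _ h2).symm
    exact Option.some_inj.mp h3
  have hneg : ∀ x y : A, none ∈ add (some x) (some y) ↔ y = ε * x := by
    intro x y
    have h1 := hscale0 x _ _ hb
    rw [mul_one, mul_comm x ε] at h1
    constructor
    · intro h
      obtain ⟨c, -, hc⟩ := huniq (some x)
      exact Option.some_inj.mp ((hc _ h).trans (hc _ h1).symm)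
    · rintro rfl; exact h1
  have hrot : ∀ x y w : A, some (ε * w) ∈ add (some x) (some y) → some (ε * x) ∈ add (some w) (some y) := by
    intro x y w h
    rw [hcomm] at h
    have h1 := hrev _ _ _ (some (ε * y)) h ((hneg _ _).mpr rfl)
    rw [hscale ε, ← mul_assoc, ← mul_assoc, hε, one_mul, one_mul] at h1
    exact h1
  let F : A × A × A → Bool := fun t => decide (some (ε * t.2.2) ∈ add (some t.1) (some t.2.1))
  have hF : ∀ t t', Mv t t' → F t = F t' := by
    intro t t' h
    cases h with
    | swap x y z => simp only [F, hcomm (some x)]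
    | rot x y z =>
      simp only [F, decide_eq_decide]
      exact ⟨hrot _ _ _, hrot _ _ _⟩
    | scale l x y z =>
      simp only [F, decide_eq_decide]
      rw [hscale l, mul_left_comm l ε z]
  obtain ⟨g, hg⟩ : ∃ g : Orb A → Bool, ∀ x y z, g (orb x y z) = F (x, y, z) :=
    ⟨Quot.lift F hF, fun _ _ _ => rfl⟩
  refine ⟨ε, g, hε, ?_, ?_⟩
  · funext a b
    rcases a with _ | x
    · rw [hzero, dadd_none_left]
    rcases b with _ | y
    · rw [hzero', dadd_none_right]
    ext t
    rcases t with _ | t
    · rw [hneg, none_mem_dadd]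
    · rw [some_mem_dadd, hg]
      simp only [F, decide_eq_true_eq]
      rw [← mul_assoc, hε, one_mul]
  · intro hfull w
    have h1 := hfull (some 1) (some ε) (fun a => by cases a <;> simp) hb
    rw [hg]
    simp only [F, decide_eq_true_eq]
    rw [h1]; trivial

theorem dadd_full {ε : A} {g : Orb A → Bool} (hg : ∀ w, g (orb 1 ε w) = true) :
    FullAdd (none : Option A) dmul (dadd ε g) := by
  intro u v hu hv
  have h1 : u = some 1 := by
    have := hu (some 1)
    rcases u with _ | u
    · simp at this
    · simpa using this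
  subst h1
  rcases v with _ | v
  · simp at hv
  · rw [none_mem_dadd, mul_one] at hv
    subst hv
    ext t
    rcases t with _ | t
    · simp
    · simp only [some_mem_dadd, Set.mem_univ, iff_true]
      exact hg _

theorem dadd_inj {ε ε' : A} {g g' : Orb A → Bool} (hε : ε * ε = 1) (h : dadd ε g = dadd ε' g') :
    ε = ε' ∧ g = g' := by
  have h1 : ε = ε' := by
    have : none ∈ dadd ε' g' (some 1) (some ε) := by rw [← h]; simp
    simpa using this
  subst h1
  refine ⟨rfl, ?_⟩
  funext o
  obtain ⟨⟨x, y, z⟩, rfl⟩ := Quot.exists_rep o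
  have h2 : some (ε * z) ∈ dadd ε g (some x) (some y) ↔ some (ε * z) ∈ dadd ε g' (some x) (some y) := by
    rw [h]
  rw [some_mem_dadd, some_mem_dadd, ← mul_assoc, hε, one_mul] at h2
  exact Bool.eq_iff_iff.mpr h2

end decode

end Pool.Agent.U96.QH
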