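import Pool.Agent.U96.QH.Count
import Pool.Agent.U96.QH.Defs

set_option autoImplicit false

/-!
# Comparing full structures and all hyperfields with a fixed multiplication
-/

namespace Pool.Agent.U96.QH

open Finset

abbrev Str (r : ℕ) := (Fin (r+1) → Fin (r+1) → Fin (r+1)) × (Fin (r+1) → Fin (r+1) → Set (Fin (r+1)))

theorem exists_group (r : ℕ) (m : Fin (r+1) → Fin (r+1) → Fin (r+1)) (hm : MulAx 0 m) :
    ∃ (A : Type) (_ : CommGroup A) (_ : Fintype A) (_ : DecidableEq A) (e : Option A ≃ Fin (r+1)),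
      e none = 0 ∧ m = tmul e dmul ∧ Fintype.card A = r := by
  classical
  obtain ⟨⟨u, hu, hu'⟩, hcomm, hassoc, hzero, hnz, hinv⟩ := hm
  let A := {x : Fin (r+1) // x ≠ 0}
  have hinv' : ∀ a : A, ∃ b : A, m b a = u := by
    rintro ⟨a, ha⟩
    obtain ⟨b, hb⟩ := hinv a ha
    have hb0 : b ≠ 0 := by
      rintro rfl
      have h1 := hb u
      rw [hcomm a 0, hzero, hzero] at h1
      exact hu h1.symm
    refine ⟨⟨b, hb0⟩, ?_⟩
    have h1 := hb u
    rw [hcomm _ u, hu', hcomm] at h1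
    exact h1
  choose inv hinv'' using hinv'
  let instMul : Mul A := ⟨fun a b => ⟨m a b, hnz a b a.2 b.2⟩⟩
  let instOne : One A := ⟨⟨u, hu⟩⟩
  let instInv : Inv A := ⟨inv⟩
  let instG : Group A := Group.ofLeftAxioms (fun a b c => Subtype.ext (hassoc a b c))
    (fun a => Subtype.ext (hu' a)) (fun a => Subtype.ext (hinv'' a))
  let instCG : CommGroup A := { instG with mul_comm := fun a b => Subtype.ext (hcomm a b) }
  refine ⟨A, instCG, inferInstance, inferInstance, Equiv.optionSubtypeNe (0 : Fin (r+1)), ?_, ?_, ?_⟩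
  · exact Equiv.optionSubtypeNe_none _
  · funext a b
    by_cases ha : a = 0
    · subst ha
      rw [hzero, tmul, Equiv.optionSubtypeNe_symm_self, dmul_none_left]
      exact (Equiv.optionSubtypeNe_none _).symm
    by_cases hb : b = 0
    · subst hb
      rw [hcomm, hzero, tmul, Equiv.optionSubtypeNe_symm_self, dmul_none_right]
      exact (Equiv.optionSubtypeNe_none _).symm
    rw [tmul, Equiv.optionSubtypeNe_symm_of_ne ha, Equiv.optionSubtypeNe_symm_of_ne hb, dmul_some]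
    rfl
  · have : Fintype.card A = Fintype.card (Fin (r+1)) - 1 := by
      exact Fintype.card_subtype_compl (fun x : Fin (r+1) => x = 0) |>.trans (by simp)
    simpa using this

section

variable {A : Type} [CommGroup A] [Fintype A]

theorem card_rich_ge [DecidableEq A] (ε : A) (ρ : ℝ) (hρ0 : 0 ≤ ρ) (hρ1 : ρ ≤ 1) (hρ : ρ ^ 12 = 3 / 4)
    (hr : (Fintype.card A : ℝ) ^ 4 * ρ ^ Fintype.card A ≤ 1 / 2) [Fintype (Orb A)] [DecidableEq (Orb A)]
    [DecidablePred (fun g : Orb A → Bool => Rich ε g)] :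
    (2 : ℝ) ^ Fintype.card (Orb A) ≤ 2 * ((univ.filter (fun g : Orb A → Bool => Rich ε g)).card : ℝ) := by
  classical
  have hsplit := Finset.card_filter_add_card_filter_not (s := (univ : Finset (Orb A → Bool)))
    (fun g => Rich ε g)
  have hsub : (univ.filter (fun g : Orb A → Bool => ¬ Rich ε g)) ⊆
      (univ : Finset (A × A × A × A)).biUnion (fun t => univ.filter (fun g : Orb A → Bool =>
        ∀ w, ¬ (g (orb t.1 t.2.1 (ε * w)) = true ∧ g (orb w t.2.2.1 (ε * t.2.2.2)) = true))) := by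
    intro g hg
    rw [mem_filter] at hg
    simp only [Rich, not_forall, not_exists] at hg
    obtain ⟨-, x, y, z, u, h⟩ := hg
    rw [mem_biUnion]
    exact ⟨(x, y, z, u), mem_univ _, by rw [mem_filter]; exact ⟨mem_univ _, h⟩⟩
  have h1 : ((univ.filter (fun g : Orb A → Bool => ¬ Rich ε g)).card : ℝ) ≤
      (Fintype.card A : ℝ) ^ 4 * (ρ ^ Fintype.card A * 2 ^ Fintype.card (Orb A)) := by
    have h2 : ((univ.filter (fun g : Orb A → Bool => ¬ Rich ε g)).card : ℝ) ≤
      ∑ t : A × A × A × A, ((univ.filter (fun g : Orb A → Bool =>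
        ∀ w, ¬ (g (orb t.1 t.2.1 (ε * w)) = true ∧ g (orb w t.2.2.1 (ε * t.2.2.2)) = true))).card : ℝ) := by
      exact_mod_cast (card_le_card hsub).trans card_biUnion_le
    refine h2.trans ?_
    have h3 : ∀ t ∈ (univ : Finset (A × A × A × A)), ((univ.filter (fun g : Orb A → Bool =>
        ∀ w, ¬ (g (orb t.1 t.2.1 (ε * w)) = true ∧ g (orb w t.2.2.1 (ε * t.2.2.2)) = true))).card : ℝ)
        ≤ ρ ^ Fintype.card A * 2 ^ Fintype.card (Orb A) := by
      intro t _
      exact count_bad_real (fun w => orb t.1 t.2.1 (ε * w)) (fun w => orb w t.2.2.1 (ε * t.2.2.2))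
        (fun o => orb_fibre_mul _ _ _ o) (fun o => orb_fibre_fst _ _ o) ρ hρ0 hρ1 hρ
    refine (Finset.sum_le_sum h3).trans ?_
    rw [Finset.sum_const, nsmul_eq_mul]
    apply le_of_eq
    congr 1
    simp [Fintype.card_prod]
    ring
  have h4 : (((univ.filter (fun g : Orb A → Bool => Rich ε g)).card : ℝ)) +
      ((univ.filter (fun g : Orb A → Bool => ¬ Rich ε g)).card : ℝ) = 2 ^ Fintype.card (Orb A) := by
    have : ((univ : Finset (Orb A → Bool)).card : ℝ) = 2 ^ Fintype.card (Orb A) := by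
      rw [card_univ, Fintype.card_fun]; simp
    rw [← this]
    exact_mod_cast hsplit
  have h5 : (Fintype.card A : ℝ) ^ 4 * (ρ ^ Fintype.card A * 2 ^ Fintype.card (Orb A)) ≤
      1 / 2 * 2 ^ Fintype.card (Orb A) := by
    rw [← mul_assoc]
    gcongr
  linarith

end

open Classical in
/-- comparison for a fixed multiplication -/
theorem fixed_mul (r : ℕ) (ρ τ : ℝ) (hρ0 : 0 ≤ ρ) (hρ1 : ρ ≤ 1) (hρ : ρ ^ 12 = 3 / 4)
    (hτ1 : 1 ≤ τ) (hτ : τ ^ 3 = 2) (hr : (r : ℝ) ^ 4 * ρ ^ r ≤ 1 / 2)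
    (m : Fin (r+1) → Fin (r+1) → Fin (r+1)) :
    τ ^ r * ((univ.filter (fun p : Str r => (MulAx 0 p.1 ∧ WeakAdd 0 p.1 p.2 ∧ FullAdd 0 p.1 p.2) ∧ p.1 = m)).card : ℝ)
      ≤ 2 * ((univ.filter (fun p : Str r => HypAx 0 p.1 p.2 ∧ p.1 = m)).card : ℝ) := by
  by_cases hm : MulAx 0 m
  · obtain ⟨A, instG, instF, instD, e, he, hme, hcard⟩ := exists_group r m hm
    have : Fintype (Orb A) := Fintype.ofFinite _
    let D : (Σ _ : A, (Orb A → Bool)) → Str r := fun x => (tmul e dmul, tadd e (dadd x.1 x.2))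
    let Pfull : Finset (Σ _ : A, (Orb A → Bool)) :=
      (univ.filter (fun ε : A => ε * ε = 1)).sigma (fun ε => univ.filter (fun g => ∀ w, g (orb 1 ε w) = true))
    let Prich : Finset (Σ _ : A, (Orb A → Bool)) :=
      (univ.filter (fun ε : A => ε * ε = 1)).sigma (fun ε => univ.filter (fun g => Rich ε g))
    have h1 : (univ.filter (fun p : Str r => (MulAx 0 p.1 ∧ WeakAdd 0 p.1 p.2 ∧ FullAdd 0 p.1 p.2) ∧ p.1 = m))
        ⊆ Pfull.image D := by
      rintro ⟨m', add⟩ hp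
      rw [mem_filter] at hp
      obtain ⟨-, ⟨h1, h2, h3⟩, h4⟩ := hp
      simp only at h1 h2 h3 h4
      subst h4
      have h2' := h2.transport e.symm
      have h3' := h3.transport e.symm
      rw [← he, Equiv.symm_apply_apply, hme, tmul_symm_tmul] at h2' h3'
      obtain ⟨ε, g, hε, hadd, hfull⟩ := exists_encode h2'
      rw [mem_image]
      refine ⟨⟨ε, g⟩, ?_, ?_⟩
      · simp only [Pfull, mem_sigma, mem_filter, mem_univ, true_and]
        exact ⟨hε, hfull h3'⟩
      · simp only [D]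
        rw [← hadd, tadd_tadd_symm, ← hme]
    have h2 : Prich.image D ⊆ (univ.filter (fun p : Str r => HypAx 0 p.1 p.2 ∧ p.1 = m)) := by
      intro p hp
      rw [mem_image] at hp
      obtain ⟨⟨ε, g⟩, hx, rfl⟩ := hp
      simp only [Prich, mem_sigma, mem_filter, mem_univ, true_and] at hx
      rw [mem_filter]
      refine ⟨mem_univ _, ?_, hme.symm⟩
      have := (hypAx_dec hx.1 hx.2).transport e
      rw [he] at this
      exact this
    have h3 : Set.InjOn D Prich := by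
      rintro ⟨ε, g⟩ hx ⟨ε', g'⟩ hx' h
      simp only [Prich, coe_sigma, Set.mem_sigma_iff, coe_filter, mem_univ, true_and, Set.mem_ofPred_eq] at hx hx'
      have h4 : tadd e (dadd ε g) = tadd e (dadd ε' g') := (Prod.mk.inj h).2
      have h5 : dadd ε g = dadd ε' g' := by
        rw [← tadd_symm_tadd e (dadd ε g), h4, tadd_symm_tadd]
      obtain ⟨rfl, rfl⟩ := dadd_inj hx.1 h5
      rfl
    have h4 : (Pfull.card : ℝ) * τ ^ r ≤ 2 * (Prich.card : ℝ) := by
      simp only [Pfull, Prich, card_sigma, Nat.cast_sum]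
      rw [Finset.sum_mul, Finset.mul_sum]
      apply Finset.sum_le_sum
      intro ε hε
      rw [mem_filter] at hε
      have h5 := count_full (fun w => orb 1 ε w) (fun o => orb_fibre _ _ o) τ hτ1 hτ
      have h6 := card_rich_ge ε ρ hρ0 hρ1 hρ (by rw [hcard]; exact hr)
      rw [hcard] at h5
      linarith
    have h5 := (card_le_card h1).trans card_image_le
    have h6 := card_le_card h2
    rw [card_image_of_injOn h3] at h6
    have h5' : ((univ.filter (fun p : Str r => (MulAx 0 p.1 ∧ WeakAdd 0 p.1 p.2 ∧ FullAdd 0 p.1 p.2) ∧ p.1 = m)).card : ℝ)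
      ≤ (Pfull.card : ℝ) := by exact_mod_cast h5
    have h6' : (Prich.card : ℝ) ≤ ((univ.filter (fun p : Str r => HypAx 0 p.1 p.2 ∧ p.1 = m)).card : ℝ) := by
      exact_mod_cast h6
    calc τ ^ r * _ ≤ τ ^ r * (Pfull.card : ℝ) := by gcongr
      _ = (Pfull.card : ℝ) * τ ^ r := mul_comm _ _
      _ ≤ 2 * (Prich.card : ℝ) := h4
      _ ≤ _ := by gcongr
  · have : (univ.filter (fun p : Str r => (MulAx 0 p.1 ∧ WeakAdd 0 p.1 p.2 ∧ FullAdd 0 p.1 p.2) ∧ p.1 = m)) = ∅ := by
      rw [filter_eq_empty_iff]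
      rintro p - ⟨⟨h, -, -⟩, rfl⟩
      exact hm h
    rw [this]
    simp

open Classical in
theorem total_compare (r : ℕ) (ρ τ : ℝ) (hρ0 : 0 ≤ ρ) (hρ1 : ρ ≤ 1) (hρ : ρ ^ 12 = 3 / 4)
    (hτ1 : 1 ≤ τ) (hτ : τ ^ 3 = 2) (hr : (r : ℝ) ^ 4 * ρ ^ r ≤ 1 / 2) :
    τ ^ r * ((univ.filter (fun p : Str r => MulAx 0 p.1 ∧ WeakAdd 0 p.1 p.2 ∧ FullAdd 0 p.1 p.2)).card : ℝ)
      ≤ 2 * ((univ.filter (fun p : Str r => HypAx 0 p.1 p.2)).card : ℝ) := by
  have h1 := Finset.card_eq_sum_card_fiberwise (s := (univ.filter (fun p : Str r => MulAx 0 p.1 ∧ WeakAdd 0 p.1 p.2 ∧ FullAdd 0 p.1 p.2)))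
    (f := fun p => p.1) (t := univ) (fun _ _ => mem_univ _)
  have h2 := Finset.card_eq_sum_card_fiberwise (s := (univ.filter (fun p : Str r => HypAx 0 p.1 p.2)))
    (f := fun p => p.1) (t := univ) (fun _ _ => mem_univ _)
  rw [h1, h2]
  push_cast
  rw [Finset.mul_sum, Finset.mul_sum]
  apply Finset.sum_le_sum
  intro m _
  rw [filter_filter, filter_filter]
  exact fixed_mul r ρ τ hρ0 hρ1 hρ hτ1 hτ hr m

end Pool.Agent.U96.QH
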