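import Mathlib

set_option autoImplicit false

/-!
# Counting endomorphisms of a finite group
-/

namespace Pool.Agent.U96.QH

open Finset

theorem exists_gen (A : Type*) [Group A] [Fintype A] :
    ∃ S : Finset A, Subgroup.closure (S : Set A) = ⊤ ∧ 2 ^ S.card ≤ Fintype.card A := by
  classical
  have hne : (univ.filter (fun S : Finset A => 2 ^ S.card ≤ Nat.card (Subgroup.closure (S : Set A)))).Nonempty := by
    refine ⟨∅, ?_⟩
    rw [mem_filter]
    refine ⟨mem_univ _, ?_⟩
    simp
  obtain ⟨S, hS, hmax⟩ := Finset.exists_max_image _ (fun S : Finset A => Nat.card (Subgroup.closure (S : Set A))) hne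
  rw [mem_filter] at hS
  have htop : Subgroup.closure (S : Set A) = ⊤ := by
    by_contra hcon
    obtain ⟨x, hx⟩ : ∃ x, x ∉ Subgroup.closure (S : Set A) := by
      by_contra h
      push Not at h
      exact hcon ((Subgroup.eq_top_iff' _).mpr h)
    have hle : Subgroup.closure (S : Set A) ≤ Subgroup.closure ((insert x S : Finset A) : Set A) := by
      apply Subgroup.closure_mono
      simp
    have hlt : Subgroup.closure (S : Set A) < Subgroup.closure ((insert x S : Finset A) : Set A) := by
      refine lt_of_le_of_ne hle ?_
      intro h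
      apply hx
      rw [h]
      apply Subgroup.subset_closure
      simp
    have hdvd := Subgroup.card_dvd_of_le hle
    obtain ⟨k, hk⟩ := hdvd
    have hlt' : Nat.card (Subgroup.closure (S : Set A)) < Nat.card (Subgroup.closure ((insert x S : Finset A) : Set A)) := by
      refine lt_of_le_of_ne (Nat.le_of_dvd Nat.card_pos (Subgroup.card_dvd_of_le hle)) ?_
      intro h
      exact hlt.ne (Subgroup.eq_of_le_of_card_ge hle h.ge)
    have hk2 : 2 ≤ k := by
      rcases k with _ | _ | k
      · simp at hk
      · omega
      · omega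
    have hmem : (insert x S) ∈ (univ.filter (fun S : Finset A => 2 ^ S.card ≤ Nat.card (Subgroup.closure (S : Set A)))) := by
      rw [mem_filter]
      refine ⟨mem_univ _, ?_⟩
      calc 2 ^ (insert x S).card ≤ 2 ^ (S.card + 1) := Nat.pow_le_pow_right (by norm_num) (card_insert_le _ _)
        _ = 2 ^ S.card * 2 := pow_succ _ _
        _ ≤ Nat.card (Subgroup.closure (S : Set A)) * k := Nat.mul_le_mul hS.2 hk2
        _ = _ := hk.symm
    exact absurd (hmax _ hmem) (not_le.mpr hlt')
  refine ⟨S, htop, ?_⟩
  have := hS.2
  rw [htop] at this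
  simpa [Nat.card_eq_fintype_card] using this

theorem card_end_le (A : Type*) [Group A] [Fintype A] :
    Nat.card (A →* A) ≤ Fintype.card A ^ Nat.log 2 (Fintype.card A) := by
  classical
  obtain ⟨S, hS, hcard⟩ := exists_gen A
  have hinj : Function.Injective (fun (φ : A →* A) => fun s : S => φ s) := by
    intro φ ψ h
    apply MonoidHom.eq_of_eqOn_dense hS
    intro s hs
    exact congrFun h ⟨s, hs⟩
  calc Nat.card (A →* A) ≤ Nat.card (S → A) := Nat.card_le_card_of_injective _ hinj
    _ = Fintype.card A ^ S.card := by simp [Nat.card_eq_fintype_card]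
    _ ≤ Fintype.card A ^ Nat.log 2 (Fintype.card A) := by
        apply Nat.pow_le_pow_right Fintype.card_pos
        exact Nat.le_log_of_pow_le (by norm_num) hcard

end Pool.Agent.U96.QH
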