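import Pool.Agent.U96.QH.Quo
import Pool.Agent.U96.QH.Grp

set_option autoImplicit false

/-!
# Quotients of finite fields: the isomorphism type is determined by the two cardinalities
-/

namespace Pool.Agent.U96.QH

open Finset

/-- isomorphism of structures -/
def Iso {r : ℕ} (p q : Str r) : Prop :=
  ∃ e : Fin (r+1) ≃ Fin (r+1), ∀ a b, e (p.1 a b) = q.1 (e a) (e b) ∧ e '' p.2 a b = q.2 (e a) (e b)

theorem Iso.refl {r : ℕ} (p : Str r) : Iso p p := ⟨Equiv.refl _, fun a b => by simp⟩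

theorem iso_iff {r : ℕ} (p q : Str r) : Iso p q ↔ ∃ e : Fin (r+1) ≃ Fin (r+1), q = (tmul e p.1, tadd e p.2) := by
  constructor
  · rintro ⟨e, he⟩
    refine ⟨e, ?_⟩
    apply Prod.ext
    · funext a b
      obtain ⟨a, rfl⟩ := e.surjective a
      obtain ⟨b, rfl⟩ := e.surjective b
      simp only [tmul_apply]
      exact (he a b).1.symm
    · funext a b
      obtain ⟨a, rfl⟩ := e.surjective a
      obtain ⟨b, rfl⟩ := e.surjective b
      simp only [tadd_apply]
      exact (he a b).2.symm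
  · rintro ⟨e, rfl⟩
    exact ⟨e, fun a b => by simp⟩

theorem Iso.symm {r : ℕ} {p q : Str r} (h : Iso p q) : Iso q p := by
  obtain ⟨e, he⟩ := h
  refine ⟨e.symm, fun a b => ?_⟩
  obtain ⟨a, rfl⟩ := e.surjective a
  obtain ⟨b, rfl⟩ := e.surjective b
  obtain ⟨h1, h2⟩ := he a b
  rw [← h1, ← h2]
  simp [Set.image_image]

theorem Iso.trans {r : ℕ} {p q s : Str r} (h : Iso p q) (h' : Iso q s) : Iso p s := by
  obtain ⟨e, he⟩ := h
  obtain ⟨e', he'⟩ := h'
  refine ⟨e.trans e', fun a b => ?_⟩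
  obtain ⟨h1, h2⟩ := he a b
  obtain ⟨h3, h4⟩ := he' (e a) (e b)
  simp only [Equiv.trans_apply]
  refine ⟨by rw [h1, h3], ?_⟩
  rw [← h4, ← h2, Set.image_image]

section

variable {r : ℕ} {p p' : Str r} {K K' : Type} [Field K] [Field K'] {G : Subgroup Kˣ} {G' : Subgroup K'ˣ}
  {f : K → Fin (r+1)} {f' : K' → Fin (r+1)}

theorem QD.pos (h : QD p K G f) : 0 < r := by
  rcases Nat.eq_zero_or_pos r with rfl | h'
  · exfalso
    have h1 : f 1 = 0 := Fin.ext (by omega)
    rw [h.eq_zero_iff] at h1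
    exact one_ne_zero h1
  · exact h'

theorem mem_iff_pow [Fintype K] (G : Subgroup Kˣ) (g : Kˣ) : g ∈ G ↔ g ^ (Nat.card G) = 1 := by
  classical
  have h1 : G ≤ rootsOfUnity (Nat.card G) K := by
    intro x hx
    rw [mem_rootsOfUnity]
    have := pow_card_eq_one' (x := (⟨x, hx⟩ : G))
    exact congrArg Subtype.val this
  have hpos : 0 < Nat.card G := Nat.card_pos
  have : NeZero (Nat.card G) := ⟨hpos.ne'⟩
  have h2 : Nat.card (rootsOfUnity (Nat.card G) K) ≤ Nat.card G := card_rootsOfUnity K (Nat.card G)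
  have h3 : G = rootsOfUnity (Nat.card G) K := Subgroup.eq_of_le_of_card_ge h1 h2
  constructor
  · intro h
    rw [h3, mem_rootsOfUnity] at h
    exact h
  · intro h
    rw [h3, mem_rootsOfUnity]
    exact h

theorem iso_of_card [Fintype K] [Fintype K'] (h : QD p K G f) (h' : QD p' K' G' f')
    (hc : Fintype.card K = Fintype.card K') : Iso p p' := by
  classical
  have hr := h.pos
  obtain ⟨hs, h0, hf, hm, ha⟩ := h
  obtain ⟨hs', h0', hf', hm', ha'⟩ := h'
  have c1 := card_eq hs h0 hf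
  have c2 := card_eq hs' h0' hf'
  have c3 : Nat.card G = Nat.card G' := by
    have : r * Nat.card G = r * Nat.card G' := by omega
    exact Nat.eq_of_mul_eq_mul_left hr this
  let φ : K ≃+* K' := FiniteField.ringEquivOfCardEq hc
  have hG1 : ∀ g ∈ G, Units.map (φ : K →* K') g ∈ G' := by
    intro g hg
    rw [mem_iff_pow] at hg ⊢
    rw [← map_pow, ← c3, hg, map_one]
  have hG2 : ∀ g ∈ G', Units.map (φ.symm : K' →* K) g ∈ G := by
    intro g hg
    rw [mem_iff_pow] at hg ⊢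
    rw [← map_pow, c3, hg, map_one]
  have hG1' : ∀ g : Kˣ, ((Units.map (φ : K →* K') g : K'ˣ) : K') = φ g := fun g => rfl
  have hG2' : ∀ g : K'ˣ, ((Units.map (φ.symm : K' →* K) g : Kˣ) : K) = φ.symm g := fun g => rfl
  have hfφ : ∀ x y, f x = f y ↔ f' (φ x) = f' (φ y) := by
    intro x y
    rw [hf, hf']
    constructor
    · rintro ⟨g, hg, rfl⟩
      exact ⟨_, hG1 g hg, by rw [hG1', map_mul]⟩
    · rintro ⟨g, hg, hg'⟩
      refine ⟨_, hG2 g hg, ?_⟩
      apply φ.injective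
      rw [hG2', map_mul, RingEquiv.apply_symm_apply, hg']
  obtain ⟨v, hv⟩ := hs.hasRightInverse
  let e0 : Fin (r+1) → Fin (r+1) := fun i => f' (φ (v i))
  have he0 : ∀ x, e0 (f x) = f' (φ x) := by
    intro x
    exact (hfφ _ _).mp (hv (f x))
  have hinj : Function.Injective e0 := by
    intro i j hij
    have := (hfφ _ _).mpr hij
    rwa [hv, hv] at this
  let e : Fin (r+1) ≃ Fin (r+1) := Equiv.ofBijective e0 (Finite.injective_iff_bijective.mp hinj)
  have he : ∀ x, e (f x) = f' (φ x) := he0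
  refine ⟨e, fun a b => ?_⟩
  obtain ⟨a, rfl⟩ := hs a
  obtain ⟨b, rfl⟩ := hs b
  constructor
  · rw [← hm, he, he, he, map_mul, hm']
  · rw [ha, he, he, ha']
    ext z
    constructor
    · rintro ⟨_, ⟨g, hg, k, hk, rfl⟩, rfl⟩
      refine ⟨_, hG1 g hg, _, hG1 k hk, ?_⟩
      rw [he, map_add, map_mul, map_mul, hG1', hG1']
    · rintro ⟨g, hg, k, hk, rfl⟩
      refine ⟨_, ⟨_, hG2 g hg, _, hG2 k hk, rfl⟩, ?_⟩
      rw [he, map_add, map_mul, map_mul, hG2', hG2', RingEquiv.apply_symm_apply, RingEquiv.apply_symm_apply]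

end

end Pool.Agent.U96.QH
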