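import Pool.Agent.U96.QH.IsoCard

set_option autoImplicit false

/-!
# Passing from labelled structures to isomorphism classes
-/

namespace Pool.Agent.U96.QH

open Finset

/-- relabelling -/
def act {r : ℕ} (e : Fin (r+1) ≃ Fin (r+1)) (p : Str r) : Str r := (tmul e p.1, tadd e p.2)

/-- relabellings fixing `0` -/
abbrev E0 (r : ℕ) := {e : Fin (r+1) ≃ Fin (r+1) // e 0 = 0}

theorem iso_zero {r : ℕ} {p q : Str r} (hp : MulAx 0 p.1) (hq : MulAx 0 q.1)
    (e : Fin (r+1) ≃ Fin (r+1)) (he : q = act e p) : e 0 = 0 := by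
  obtain ⟨-, -, -, h1, -, -⟩ := hp
  obtain ⟨-, h3, -, h2, -, -⟩ := hq
  have h4 : q.1 (e 0) (e (e.symm 0)) = e (p.1 0 (e.symm 0)) := by
    rw [he]; exact tmul_apply e p.1 0 (e.symm 0)
  rw [h1, Equiv.apply_symm_apply, h3, h2] at h4
  exact h4.symm

theorem act_act {r : ℕ} (e e' : Fin (r+1) ≃ Fin (r+1)) (p : Str r) : act e' (act e p) = act (e.trans e') p := by
  apply Prod.ext
  · funext a b
    simp [act, tmul]
  · funext a b
    simp only [act, tadd, Set.image_image]
    rfl

theorem act_refl {r : ℕ} (p : Str r) : act (Equiv.refl _) p = p := by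
  apply Prod.ext
  · funext a b
    simp [act, tmul]
  · funext a b
    simp [act, tadd]

open Classical in
theorem aut_bound {r : ℕ} (m : Fin (r+1) → Fin (r+1) → Fin (r+1)) (hm : MulAx 0 m) :
    (univ.filter (fun e : E0 r => tmul e.1 m = m)).card ≤ r ^ Nat.log 2 r := by
  obtain ⟨A, instG, instF, instD, e0, he0, hme, hcard⟩ := exists_group r m hm
  have h1 := card_end_le A
  rw [hcard] at h1
  refine le_trans ?_ h1
  have key : ∀ e : E0 r, tmul e.1 m = m → ∃ φ : A →* A, ∀ a, e.1 (e0 (some a)) = e0 (some (φ a)) := by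
    rintro ⟨e, he⟩ hem
    have h2 : ∀ a : A, ∃ b : A, e (e0 (some a)) = e0 (some b) := by
      intro a
      obtain ⟨x, hx⟩ := e0.surjective (e (e0 (some a)))
      rcases x with _ | b
      · exfalso
        rw [he0, ← he] at hx
        have := e.injective hx
        rw [← he0] at this
        have := e0.injective this
        simp at this
      · exact ⟨b, hx.symm⟩
    choose φ hφ using h2
    have hmul : ∀ a b, φ (a * b) = φ a * φ b := by
      intro a b
      have h3 : e (m (e0 (some a)) (e0 (some b))) = m (e (e0 (some a))) (e (e0 (some b))) := by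
        conv_rhs => rw [← hem]
        simp
      rw [hme, hφ, hφ, tmul_apply, tmul_apply, dmul_some, dmul_some, hφ] at h3
      exact Option.some_inj.mp (e0.injective h3)
    refine ⟨MonoidHom.mk' φ hmul, fun a => hφ a⟩
  have h2 : ∃ Φ : E0 r → (A →* A), ∀ e : E0 r, tmul e.1 m = m → ∀ a, e.1 (e0 (some a)) = e0 (some (Φ e a)) := by
    have : ∀ e : E0 r, ∃ φ : A →* A, tmul e.1 m = m → ∀ a, e.1 (e0 (some a)) = e0 (some (φ a)) := by
      intro e
      by_cases h : tmul e.1 m = m
      · obtain ⟨φ, hφ⟩ := key e h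
        exact ⟨φ, fun _ => hφ⟩
      · exact ⟨1, fun h' => absurd h' h⟩
    choose Φ hΦ using this
    exact ⟨Φ, hΦ⟩
  obtain ⟨Φ, hΦ⟩ := h2
  have : Finite (A →* A) := Finite.of_injective (fun φ : A →* A => (φ : A → A)) DFunLike.coe_injective
  have : Fintype (A →* A) := Fintype.ofFinite _
  rw [Nat.card_eq_fintype_card, ← card_univ]
  apply Finset.card_le_card_of_injOn Φ
  · intro _ _; simp
  · intro e he e' he' hee
    simp only [coe_filter, mem_univ, true_and, Set.mem_ofPred_eq] at he he'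
    apply Subtype.ext
    apply Equiv.ext
    intro x
    obtain ⟨x, rfl⟩ := e0.surjective x
    rcases x with _ | a
    · rw [he0, e.2, e'.2]
    · rw [hΦ e he, hΦ e' he', hee]

open Classical in
theorem orbit_lower {r : ℕ} (T S : Finset (Str r)) (hT : ∀ p ∈ T, MulAx 0 p.1)
    (hTS : ∀ p ∈ T, ∀ e : E0 r, act e.1 p ∈ S)
    (hpair : ∀ p ∈ T, ∀ q ∈ T, Iso p q → p = q) :
    T.card * Fintype.card (E0 r) ≤ r ^ Nat.log 2 r * S.card := by
  rw [← card_univ, ← card_product]
  refine Finset.card_le_mul_card_image_of_maps_to (f := fun x : Str r × E0 r => act x.2.1 x.1)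
    (t := S) ?_ _ ?_
  · intro x hx
    rw [mem_product] at hx
    exact hTS _ hx.1 _
  · intro s hs
    by_cases hne : ({x ∈ T ×ˢ (univ : Finset (E0 r)) | act x.2.1 x.1 = s}).Nonempty
    · obtain ⟨⟨p0, e0⟩, h0⟩ := hne
      rw [mem_filter, mem_product] at h0
      obtain ⟨⟨hp0, -⟩, hs0⟩ := h0
      simp only at hp0 hs0
      have he0' : e0.1.symm 0 = 0 := by
        rw [Equiv.symm_apply_eq, e0.2]
      refine le_trans ?_ (aut_bound p0.1 (hT p0 hp0))
      apply Finset.card_le_card_of_injOn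
        (fun x : Str r × E0 r => (⟨x.2.1.trans e0.1.symm, by
          rw [Equiv.trans_apply, x.2.2, he0']⟩ : E0 r))
      · rintro ⟨p, e⟩ hx
        simp only [coe_filter, mem_product, mem_univ, and_true, Set.mem_ofPred_eq] at hx ⊢
        obtain ⟨hp, hx⟩ := hx
        have hpp : p = p0 := by
          apply hpair p hp p0 hp0
          have h1 : Iso p s := (iso_iff _ _).mpr ⟨e.1, hx.symm⟩
          have h2 : Iso p0 s := (iso_iff _ _).mpr ⟨e0.1, hs0.symm⟩
          exact h1.trans h2.symm
        subst hpp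
        simp only [true_and]
        have h3 : act (e.1.trans e0.1.symm) p = p := by
          rw [← act_act, hx, ← hs0, act_act]
          simp [act_refl]
        exact congrArg Prod.fst h3
      · rintro ⟨p, e⟩ hx ⟨p', e'⟩ hx' h
        simp only [coe_filter, mem_product, mem_univ, and_true, Set.mem_ofPred_eq] at hx hx'
        obtain ⟨hp, hx⟩ := hx
        obtain ⟨hp', hx'⟩ := hx'
        have hpp : p = p' := by
          apply hpair p hp p' hp'
          have h1 : Iso p s := (iso_iff _ _).mpr ⟨e.1, hx.symm⟩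
          have h2 : Iso p' s := (iso_iff _ _).mpr ⟨e'.1, hx'.symm⟩
          exact h1.trans h2.symm
        have hee : e = e' := by
          apply Subtype.ext
          have := congrArg Subtype.val h
          simp only at this
          apply Equiv.ext
          intro x
          have h4 := congrArg (fun t : Fin (r+1) ≃ Fin (r+1) => t x) this
          simpa using h4
        rw [hpp, hee]
    · rw [not_nonempty_iff_eq_empty] at hne
      rw [hne]; simp

open Classical in
theorem classes_le {r : ℕ} (P R : Str r → Prop) (S : Finset (Str r)) 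
    (hmul : ∀ p, P p → MulAx 0 p.1) (hS : ∀ p, P p → ∀ e : E0 r, act e.1 p ∈ S) :
    Set.ncard {C : Set (Str r) | ∃ p, P p ∧ C = {q | R q ∧ Iso p q}} * Fintype.card (E0 r)
      ≤ r ^ Nat.log 2 r * S.card := by
  set 𝒞 : Set (Set (Str r)) := {C : Set (Str r) | ∃ p, P p ∧ C = {q | R q ∧ Iso p q}} with h𝒞
  have hfin : 𝒞.Finite := Set.toFinite _
  have hrep : ∀ C : 𝒞, ∃ p, P p ∧ (C : Set (Str r)) = {q | R q ∧ Iso p q} := fun C => C.2
  choose rep hrep1 hrep2 using hrep
  have hinj : ∀ C C' : 𝒞, Iso (rep C) (rep C') → C = C' := by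
    intro C C' h
    apply Subtype.ext
    rw [hrep2 C, hrep2 C']
    ext q
    exact ⟨fun ⟨h1, h2⟩ => ⟨h1, h.symm.trans h2⟩, fun ⟨h1, h2⟩ => ⟨h1, h.trans h2⟩⟩
  have : Fintype 𝒞 := hfin.fintype
  let T : Finset (Str r) := (univ : Finset 𝒞).image rep
  have hTcard : T.card = 𝒞.ncard := by
    rw [card_image_of_injective, card_univ, Set.ncard_eq_toFinset_card', Set.toFinset_card]
    intro C C' h
    apply hinj
    rw [h]
    exact Iso.refl _
  rw [← hTcard]
  apply orbit_lower
  · intro p hp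
    obtain ⟨C, -, rfl⟩ := mem_image.mp hp
    exact hmul _ (hrep1 C)
  · intro p hp e
    obtain ⟨C, -, rfl⟩ := mem_image.mp hp
    exact hS _ (hrep1 C) e
  · intro p hp q hq hpq
    obtain ⟨C, -, rfl⟩ := mem_image.mp hp
    obtain ⟨C', -, rfl⟩ := mem_image.mp hq
    rw [hinj C C' hpq]

open Classical in
theorem classes_ge {r : ℕ} (R : Str r → Prop) (hR : ∀ p, R p → MulAx 0 p.1) :
    (univ.filter (fun p => R p)).card ≤
      Set.ncard {C : Set (Str r) | ∃ p, R p ∧ C = {q | R q ∧ Iso p q}} * Fintype.card (E0 r) := by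
  set 𝒞 : Set (Set (Str r)) := {C : Set (Str r) | ∃ p, R p ∧ C = {q | R q ∧ Iso p q}} with h𝒞
  have hfin : 𝒞.Finite := Set.toFinite _
  rw [Set.ncard_eq_toFinset_card 𝒞 hfin, mul_comm]
  refine Finset.card_le_mul_card_image_of_maps_to (f := fun p : Str r => {q | R q ∧ Iso p q})
    (t := hfin.toFinset) ?_ _ ?_
  · intro p hp
    rw [mem_filter] at hp
    rw [Set.Finite.mem_toFinset]
    exact ⟨p, hp.2, rfl⟩
  · intro C hC
    rw [Set.Finite.mem_toFinset] at hC
    obtain ⟨p0, hp0, hC⟩ := hC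
    rw [← card_univ]
    refine le_trans ?_ (card_image_le (s := (univ : Finset (E0 r))) (f := fun e => act e.1 p0))
    apply card_le_card
    intro p hp
    rw [mem_filter, mem_filter] at hp
    obtain ⟨⟨-, hp⟩, hp'⟩ := hp
    have h1 : p ∈ {q | R q ∧ Iso p q} := ⟨hp, Iso.refl _⟩
    rw [hp', hC] at h1
    obtain ⟨-, h2⟩ := h1
    obtain ⟨e, he⟩ := (iso_iff _ _).mp h2
    rw [mem_image]
    exact ⟨⟨e, iso_zero (hR _ hp0) (hR _ hp) e he⟩, mem_univ _, he.symm⟩

end Pool.Agent.U96.QH
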