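import Pool.Agent.U96.QH.Fixed

set_option autoImplicit false

/-!
# Quotient hyperfields
-/

namespace Pool.Agent.U96.QH

open Finset

/-- `f : K → Fin (r+1)` exhibits `p` as the quotient `K/G` -/
def QD {r : ℕ} (p : Str r) (K : Type) [Field K] (G : Subgroup Kˣ) (f : K → Fin (r+1)) : Prop :=
  Function.Surjective f ∧ f 0 = 0 ∧
    (∀ x y : K, f x = f y ↔ ∃ g ∈ G, y = x * (g : K)) ∧
    (∀ x y : K, f (x * y) = p.1 (f x) (f y)) ∧
    (∀ x y : K, p.2 (f x) (f y) = {z | ∃ g ∈ G, ∃ h ∈ G, z = f (x * (g : K) + y * (h : K))})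

section

variable {r : ℕ} {p : Str r} {K : Type} [Field K] {G : Subgroup Kˣ} {f : K → Fin (r+1)}

theorem QD.eq_zero_iff (h : QD p K G f) (x : K) : f x = 0 ↔ x = 0 := by
  obtain ⟨hs, h0, hf, hm, ha⟩ := h
  constructor
  · intro hx
    rw [← h0, eq_comm, hf] at hx
    obtain ⟨g, -, hg⟩ := hx
    rw [hg, zero_mul]
  · rintro rfl; exact h0

theorem QD.mulAx (h : QD p K G f) : MulAx 0 p.1 := by
  have hz := h.eq_zero_iff
  obtain ⟨hs, h0, hf, hm, ha⟩ := h
  refine ⟨⟨f 1, ?_, ?_⟩, ?_, ?_, ?_, ?_, ?_⟩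
  · rw [Ne, hz]; exact one_ne_zero
  · intro a
    obtain ⟨a, rfl⟩ := hs a
    rw [← hm, one_mul]
  · intro a b
    obtain ⟨a, rfl⟩ := hs a
    obtain ⟨b, rfl⟩ := hs b
    rw [← hm, ← hm, mul_comm]
  · intro a b c
    obtain ⟨a, rfl⟩ := hs a
    obtain ⟨b, rfl⟩ := hs b
    obtain ⟨c, rfl⟩ := hs c
    rw [← hm, ← hm, ← hm, ← hm, mul_assoc]
  · intro a
    obtain ⟨a, rfl⟩ := hs a
    have := hm 0 a
    rw [zero_mul, h0] at this
    exact this.symm
  · intro a b
    obtain ⟨a, rfl⟩ := hs a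
    obtain ⟨b, rfl⟩ := hs b
    rw [← hm, Ne, Ne, Ne, hz, hz, hz]
    exact mul_ne_zero
  · intro a ha0
    obtain ⟨a, rfl⟩ := hs a
    rw [Ne, hz] at ha0
    refine ⟨f a⁻¹, fun c => ?_⟩
    obtain ⟨c, rfl⟩ := hs c
    rw [← hm, ← hm, mul_inv_cancel₀ ha0, one_mul]

theorem QD.eq_mul (h : QD p K G f) (x : K) (g : Kˣ) (hg : g ∈ G) : f (x * g) = f x := by
  obtain ⟨hs, h0, hf, hm, ha⟩ := h
  exact ((hf _ _).mpr ⟨g, hg, rfl⟩).symm

theorem QD.weakAdd (h : QD p K G f) : WeakAdd 0 p.1 p.2 := by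
  have hz := h.eq_zero_iff
  have hmul := h.eq_mul
  obtain ⟨hs, h0, hf, hm, ha⟩ := h
  have hneg : ∀ x y : K, (0 : Fin (r+1)) ∈ p.2 (f x) (f y) ↔ ∃ g ∈ G, y = - x * ((g : Kˣ) : K) := by
    intro x y
    rw [ha]
    constructor
    · rintro ⟨g, hg, k, hk, hgk⟩
      have h1 := (hz _).mp hgk.symm
      refine ⟨g * k⁻¹, G.mul_mem hg (G.inv_mem hk), ?_⟩
      have hk0 : ((k : Kˣ) : K) ≠ 0 := k.ne_zero
      push_cast
      field_simp
      linear_combination h1
    · rintro ⟨g, hg, rfl⟩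
      refine ⟨g, hg, 1, G.one_mem, ?_⟩
      rw [← h0]
      congr 1
      push_cast
      ring
  refine ⟨?_, ?_, ?_, ?_, ?_⟩
  · intro a b
    obtain ⟨a, rfl⟩ := hs a
    obtain ⟨b, rfl⟩ := hs b
    rw [ha, ha]
    ext z
    constructor
    · rintro ⟨g, hg, k, hk, rfl⟩
      exact ⟨k, hk, g, hg, congrArg f (add_comm _ _)⟩
    · rintro ⟨g, hg, k, hk, rfl⟩
      exact ⟨k, hk, g, hg, congrArg f (add_comm _ _)⟩
  · intro a
    obtain ⟨a, rfl⟩ := hs a
    have := ha 0 a
    rw [h0] at this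
    rw [this]
    ext z
    rw [Set.mem_ofPred_eq, Set.mem_singleton_iff]
    constructor
    · rintro ⟨g, hg, k, hk, rfl⟩
      rw [zero_mul, zero_add, hmul _ _ hk]
    · rintro rfl
      exact ⟨1, G.one_mem, 1, G.one_mem, by simp⟩
  · intro a
    obtain ⟨a, rfl⟩ := hs a
    refine ⟨f (-a), ?_, ?_⟩
    · exact (hneg _ _).mpr ⟨1, G.one_mem, by simp⟩
    · intro b hb
      obtain ⟨b, rfl⟩ := hs b
      obtain ⟨g, hg, rfl⟩ := (hneg _ _).mp hb
      exact hmul _ _ hg
  · intro a b c d h1 h2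
    obtain ⟨a, rfl⟩ := hs a
    obtain ⟨b, rfl⟩ := hs b
    obtain ⟨c, rfl⟩ := hs c
    obtain ⟨d, rfl⟩ := hs d
    obtain ⟨l, hl, rfl⟩ := (hneg _ _).mp h2
    rw [ha] at h1 ⊢
    obtain ⟨g, hg, k, hk, h3⟩ := h1
    obtain ⟨s, hs', h4⟩ := (hf _ _).mp h3
    -- b g + c k = a s
    refine ⟨s * k⁻¹, G.mul_mem hs' (G.inv_mem hk), l⁻¹ * g * k⁻¹,
      G.mul_mem (G.mul_mem (G.inv_mem hl) hg) (G.inv_mem hk), ?_⟩
    have hk0 : ((k : Kˣ) : K) ≠ 0 := k.ne_zero
    have hl0 : ((l : Kˣ) : K) ≠ 0 := l.ne_zero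
    congr 1
    push_cast
    field_simp
    linear_combination h4
  · intro a b c
    obtain ⟨a, rfl⟩ := hs a
    obtain ⟨b, rfl⟩ := hs b
    obtain ⟨c, rfl⟩ := hs c
    rw [← hm, ← hm, ha, ha]
    ext z
    constructor
    · rintro ⟨_, ⟨g, hg, k, hk, rfl⟩, rfl⟩
      refine ⟨g, hg, k, hk, ?_⟩
      simp only
      rw [← hm]
      congr 1
      ring
    · rintro ⟨g, hg, k, hk, rfl⟩
      refine ⟨_, ⟨g, hg, k, hk, rfl⟩, ?_⟩
      simp only
      rw [← hm]
      congr 1
      ring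

theorem QD.fullAdd (h : QD p K G f) (hdiff : ∀ c : K, c ≠ 0 → ∃ g ∈ G, ∃ k ∈ G, c = ((g : Kˣ) : K) - ((k : Kˣ) : K)) :
    FullAdd 0 p.1 p.2 := by
  have hz := h.eq_zero_iff
  have hmul := h.eq_mul
  obtain ⟨hs, h0, hf, hm, ha⟩ := h
  intro u v hu hv
  obtain ⟨u, rfl⟩ := hs u
  obtain ⟨v, rfl⟩ := hs v
  have h1 : f u = f 1 := by
    have := hu (f 1)
    rw [← hm, mul_one] at this
    exact this
  rw [h1, ha] at hv
  obtain ⟨g, hg, k, hk, h2⟩ := hv
  have h3 := (hz _).mp h2.symm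
  have h4 : f v = f (-1) := by
    have : v = -1 * (((g * k⁻¹ : Kˣ)) : K) := by
      have hk0 : ((k : Kˣ) : K) ≠ 0 := k.ne_zero
      push_cast
      field_simp
      linear_combination h3
    rw [this, hmul _ _ (G.mul_mem hg (G.inv_mem hk))]
  rw [h1, h4, ha]
  ext t
  simp only [Set.mem_univ, iff_true]
  obtain ⟨c, rfl⟩ := hs t
  by_cases hc : c = 0
  · subst hc
    exact ⟨1, G.one_mem, 1, G.one_mem, by simp⟩
  · obtain ⟨g, hg, k, hk, rfl⟩ := hdiff c hc
    exact ⟨g, hg, k, hk, by congr 1; ring⟩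

theorem QD.act (h : QD p K G f) (e : Fin (r+1) ≃ Fin (r+1)) (he : e 0 = 0) :
    QD ((tmul e p.1, tadd e p.2) : Str r) K G (e ∘ f) := by
  obtain ⟨hs, h0, hf, hm, ha⟩ := h
  refine ⟨e.surjective.comp hs, by simp [h0, he], ?_, ?_, ?_⟩
  · intro x y
    rw [← hf]
    exact e.injective.eq_iff
  · intro x y
    simp [hm]
  · intro x y
    simp only [Function.comp_apply, tadd_apply]
    rw [ha]
    ext z
    constructor
    · rintro ⟨_, ⟨g, hg, k, hk, rfl⟩, rfl⟩
      exact ⟨g, hg, k, hk, rfl⟩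
    · rintro ⟨g, hg, k, hk, rfl⟩
      exact ⟨_, ⟨g, hg, k, hk, rfl⟩, rfl⟩

end

section infinite

theorem exists_lambda (K : Type) [Field K] [Infinite K] (ι : Type) [Fintype ι] :
    ∃ l : ι → K, ∀ s : Finset ι, s.Nonempty → ∑ i ∈ s, l i ≠ 0 := by
  classical
  have key : ∀ t : Finset ι, ∃ l : ι → K, ∀ s : Finset ι, s ⊆ t → s.Nonempty → ∑ i ∈ s, l i ≠ 0 := by
    intro t
    induction t using Finset.induction_on with
    | empty =>
      refine ⟨0, fun s hs hne => ?_⟩
      rw [subset_empty] at hs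
      subst hs
      simp at hne
    | insert j t hj ih =>
      obtain ⟨l, hl⟩ := ih
      obtain ⟨x, hx⟩ := Infinite.exists_notMem_finset (t.powerset.image (fun s => - ∑ i ∈ s, l i))
      refine ⟨Function.update l j x, fun s hs hne => ?_⟩
      by_cases hjs : j ∈ s
      · rw [← Finset.add_sum_erase s _ hjs, Function.update_self]
        intro h
        apply hx
        rw [mem_image]
        refine ⟨s.erase j, ?_, ?_⟩
        · rw [mem_powerset]
          intro i hi
          rw [mem_erase] at hi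
          rcases mem_insert.mp (hs hi.2) with h' | h'
          · exact absurd h' hi.1
          · exact h'
        · have : ∑ i ∈ s.erase j, Function.update l j x i = ∑ i ∈ s.erase j, l i := by
            apply Finset.sum_congr rfl
            intro i hi
            rw [Function.update_of_ne (ne_of_mem_erase hi)]
          rw [this] at h
          linear_combination -h
      · have : ∑ i ∈ s, Function.update l j x i = ∑ i ∈ s, l i := by
          apply Finset.sum_congr rfl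
          intro i hi
          rw [Function.update_of_ne]
          rintro rfl
          exact hjs hi
        rw [this]
        apply hl s _ hne
        intro i hi
        rcases mem_insert.mp (hs hi) with h' | h'
        · subst h'; exact absurd hi hjs
        · exact h'
  obtain ⟨l, hl⟩ := key univ
  exact ⟨l, fun s hs => hl s (subset_univ _) hs⟩

variable {r : ℕ} {K : Type} [Field K] {G : Subgroup Kˣ} {f : K → Fin (r+1)}

theorem diff_infinite [Infinite K] (hs : Function.Surjective f) (h0 : f 0 = 0)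
    (hf : ∀ x y : K, f x = f y ↔ ∃ g ∈ G, y = x * ((g : Kˣ) : K)) :
    ∀ c : K, c ≠ 0 → ∃ g ∈ G, ∃ k ∈ G, c = ((g : Kˣ) : K) - ((k : Kˣ) : K) := by
  classical
  obtain ⟨v, hv⟩ := hs.hasRightInverse
  have hv0 : v 0 = 0 := by
    have := (hf 0 (v 0)).mp (by rw [hv, h0])
    obtain ⟨g, -, hg⟩ := this
    rw [hg, zero_mul]
  obtain ⟨ι, _, hι⟩ := Combinatorics.Line.exists_mono_in_high_dimension (Fin (r+1)) (Fin (r+1))
  obtain ⟨l, hl⟩ := exists_lambda K ι
  obtain ⟨L, col, hcol⟩ := hι (fun x => f (∑ i, l i * v (x i)))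
  set a : K := ∑ i ∈ univ.filter (fun i => L.idxFun i ≠ none), l i * v (L 0 i) with ha
  set lam : K := ∑ i ∈ univ.filter (fun i => L.idxFun i = none), l i with hlam
  have hlam0 : lam ≠ 0 := by
    apply hl
    obtain ⟨i, hi⟩ := L.proper
    exact ⟨i, by simp [hi]⟩
  have hpt : ∀ j : Fin (r+1), ∑ i, l i * v (L j i) = a + lam * v j := by
    intro j
    rw [← Finset.sum_filter_add_sum_filter_not univ (fun i => L.idxFun i = none), add_comm]
    congr 1
    · rw [ha]
      apply Finset.sum_congr rfl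
      intro i hi
      rw [mem_filter] at hi
      have : L j i = L 0 i := by
        rw [Combinatorics.Line.coe_apply, Combinatorics.Line.coe_apply]
        rcases h : L.idxFun i with _ | b
        · exact absurd h hi.2
        · simp
      rw [this]
    · rw [hlam, Finset.sum_mul]
      apply Finset.sum_congr rfl
      intro i hi
      rw [mem_filter] at hi
      rw [Combinatorics.Line.coe_apply, hi.2]
      simp
  have hcol' : ∀ j : Fin (r+1), f (a + lam * v j) = f a := by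
    intro j
    have h1 := hcol j
    have h2 := hcol 0
    simp only at h1 h2
    rw [hpt] at h1 h2
    rw [hv0, mul_zero, add_zero] at h2
    rw [h1, h2]
  intro c hc
  -- a ≠ 0
  have ha0 : a ≠ 0 := by
    intro ha0
    have h1 := hcol' (f c)
    rw [ha0, zero_add, h0] at h1
    rw [eq_comm, ← h0, hf] at h1
    obtain ⟨g, -, hg⟩ := h1
    rw [zero_mul] at hg
    have h2 : v (f c) = 0 := by
      rcases mul_eq_zero.mp hg with h | h
      · exact absurd h hlam0
      · exact h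
    have h3 := hv (f c)
    rw [h2, eq_comm, eq_comm, hf] at h3
    obtain ⟨g, -, hg⟩ := h3
    rw [zero_mul] at hg
    exact hc hg
  -- choose j with v j = c * (a / lam) * g
  obtain ⟨g, hg, hg'⟩ := (hf (c * (a / lam)) (v (f (c * (a / lam))))).mp (hv _).symm
  have h1 := hcol' (f (c * (a / lam)))
  rw [eq_comm, hf] at h1
  obtain ⟨k, hk, hk'⟩ := h1
  rw [hg'] at hk'
  -- a + c a g = a k
  have h2 : c * (g : K) = (k : K) - 1 := by
    field_simp at hk'
    linear_combination hk'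
  refine ⟨k * g⁻¹, G.mul_mem hk (G.inv_mem hg), g⁻¹, G.inv_mem hg, ?_⟩
  have hg0 : ((g : Kˣ) : K) ≠ 0 := g.ne_zero
  push_cast
  field_simp
  linear_combination h2

end infinite

section finite

variable {r : ℕ} {K : Type} [Field K] {G : Subgroup Kˣ} {f : K → Fin (r+1)}

open Classical in
theorem card_class [Fintype K] (hf : ∀ x y : K, f x = f y ↔ ∃ g ∈ G, y = x * ((g : Kˣ) : K))
    (x : K) (hx : x ≠ 0) : (univ.filter (fun y => f y = f x)).card = Nat.card G := by
  have : (univ.filter (fun y => f y = f x)) = (univ : Finset G).image (fun g : G => x * ((g : Kˣ) : K)) := by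
    ext y
    simp only [mem_filter, mem_univ, true_and, mem_image]
    rw [eq_comm, hf]
    constructor
    · rintro ⟨g, hg, rfl⟩
      exact ⟨⟨g, hg⟩, rfl⟩
    · rintro ⟨⟨g, hg⟩, rfl⟩
      exact ⟨g, hg, rfl⟩
  rw [this, card_image_of_injective, card_univ, Nat.card_eq_fintype_card]
  rintro ⟨g, hg⟩ ⟨k, hk⟩ h
  simp only at h
  have := mul_left_cancel₀ hx h
  exact Subtype.ext (Units.ext this)

open Classical in
theorem card_eq [Fintype K] (hs : Function.Surjective f) (h0 : f 0 = 0)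
    (hf : ∀ x y : K, f x = f y ↔ ∃ g ∈ G, y = x * ((g : Kˣ) : K)) :
    Fintype.card K = r * Nat.card G + 1 := by
  have h1 := Finset.card_eq_sum_card_fiberwise (s := (univ : Finset K)) (f := f) (t := univ)
    (fun _ _ => mem_univ _)
  rw [card_univ, Fin.sum_univ_succ] at h1
  have hz : ∀ x, f x = 0 ↔ x = 0 := by
    intro x
    constructor
    · intro hx
      rw [← h0, eq_comm, hf] at hx
      obtain ⟨g, -, hg⟩ := hx
      rw [hg, zero_mul]
    · rintro rfl; exact h0
  have h2 : (univ.filter (fun y => f y = 0)).card = 1 := by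
    rw [card_eq_one]
    refine ⟨0, ?_⟩
    ext y
    simp [hz]
  have h3 : ∀ i : Fin r, (univ.filter (fun y => f y = i.succ)).card = Nat.card G := by
    intro i
    obtain ⟨x, hx⟩ := hs i.succ
    rw [← hx]
    apply card_class hf
    intro h
    rw [h, h0] at hx
    exact (Fin.succ_ne_zero i) hx.symm
  rw [h1, h2]
  simp only [h3]
  rw [Finset.sum_const, card_univ, Fintype.card_fin, smul_eq_mul, add_comm]

open Classical in
theorem diff_finite [Fintype K] (hs : Function.Surjective f) (h0 : f 0 = 0)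
    (hf : ∀ x y : K, f x = f y ↔ ∃ g ∈ G, y = x * ((g : Kˣ) : K))
    (hcard : r ^ 3 + r ≤ Nat.card G) (hr : 0 < r) :
    ∀ c : K, c ≠ 0 → ∃ g ∈ G, ∃ k ∈ G, c = ((g : Kˣ) : K) - ((k : Kˣ) : K) := by
  have hq := card_eq hs h0 hf
  set k := Nat.card G with hk
  have hz : ∀ x, f x = 0 ↔ x = 0 := by
    intro x
    constructor
    · intro hx
      rw [← h0, eq_comm, hf] at hx
      obtain ⟨g, -, hg⟩ := hx
      rw [hg, zero_mul]
    · rintro rfl; exact h0
  intro c hc
  by_contra hcon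
  push Not at hcon
  let Z : Finset K := univ.filter (fun x => x ≠ 0 ∧ x ≠ -1)
  let F : K → Fin (r+1) × Fin (r+1) := fun x => (f x, f (x+1))
  let J : Finset (Fin (r+1) × Fin (r+1)) :=
    (univ.filter (fun j : Fin (r+1) × Fin (r+1) => j.1 ≠ 0 ∧ j.2 ≠ 0)).erase (f c⁻¹, f c⁻¹)
  have hc' : f c⁻¹ ≠ 0 := by rw [Ne, hz]; exact inv_ne_zero hc
  have hJcard : J.card = r ^ 2 - 1 := by
    have h1 : (univ.filter (fun j : Fin (r+1) × Fin (r+1) => j.1 ≠ 0 ∧ j.2 ≠ 0)) =
        ((univ : Finset (Fin (r+1))).erase 0) ×ˢ ((univ : Finset (Fin (r+1))).erase 0) := by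
      ext ⟨i, j⟩
      simp
    rw [card_erase_of_mem (by simp [hc']), h1, card_product, card_erase_of_mem (mem_univ _), card_univ,
      Fintype.card_fin]
    simp [sq]
  have hZcard : Z.card = r * k - 1 := by
    have h1 : Z = ((univ : Finset K).erase 0).erase (-1) := by
      ext x
      simp only [Z, mem_filter, mem_univ, true_and, mem_erase, and_true]
      tauto
    rw [h1, card_erase_of_mem, card_erase_of_mem (mem_univ _), card_univ, hq]
    · simp
    · simp
  have hFmem : ∀ x ∈ Z, F x ∈ J := by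
    intro x hx
    simp only [Z, mem_filter, mem_univ, true_and] at hx
    simp only [J, mem_erase, mem_filter, mem_univ, true_and, F]
    refine ⟨?_, ?_, ?_⟩
    · intro h
      have h1 := (Prod.mk.inj h).1
      have h2 := (Prod.mk.inj h).2
      rw [eq_comm, hf] at h1 h2
      obtain ⟨g, hg, hg'⟩ := h1
      obtain ⟨l, hl, hl'⟩ := h2
      apply hcon l hl g hg
      rw [hg'] at hl'
      field_simp at hl'
      linear_combination hl'
    · rw [Ne, hz]; exact hx.1
    · rw [Ne, hz]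
      intro h
      apply hx.2
      linear_combination h
  -- second moment
  let N : Fin (r+1) × Fin (r+1) → ℕ := fun j => (Z.filter (fun x => F x = j)).card
  have hsum : Z.card = ∑ j ∈ J, N j := Finset.card_eq_sum_card_fiberwise hFmem
  have hCS : (∑ j ∈ J, (N j : ℤ)) ^ 2 ≤ (J.card : ℤ) * ∑ j ∈ J, (N j : ℤ) ^ 2 :=
    sq_sum_le_card_mul_sum_sq
  have hsq : ∑ j ∈ J, (N j) ^ 2 ≤ Z.card + k ^ 2 := by
    have h1 : ∑ j ∈ J, (N j) ^ 2 = ((Z ×ˢ Z).filter (fun x => F x.1 = F x.2)).card := by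
      rw [Finset.card_eq_sum_card_fiberwise (f := fun x : K × K => F x.1) (t := J)]
      · apply Finset.sum_congr rfl
        intro j hj
        rw [sq, ← card_product]
        congr 1
        ext ⟨x, y⟩
        simp only [mem_product, mem_filter]
        constructor
        · rintro ⟨⟨h1, h2⟩, h3, h4⟩
          exact ⟨⟨⟨h1, h3⟩, by rw [h2, h4]⟩, h2⟩
        · rintro ⟨⟨⟨h1, h3⟩, h4⟩, h2⟩
          exact ⟨⟨h1, h2⟩, h3, by rw [← h4, h2]⟩
      · intro x hx
        rw [mem_coe, mem_filter, mem_product] at hx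
        exact hFmem _ hx.1.1
    rw [h1]
    have h2 : ((Z ×ˢ Z).filter (fun x => F x.1 = F x.2)) ⊆
        Z.image (fun x => (x, x)) ∪ (univ : Finset (G × G)).image (fun t =>
          ((((t.2 : Kˣ) : K) - 1) / (((t.1 : Kˣ) : K) - ((t.2 : Kˣ) : K)),
            (((t.2 : Kˣ) : K) - 1) / (((t.1 : Kˣ) : K) - ((t.2 : Kˣ) : K)) * ((t.1 : Kˣ) : K))) := by
      rintro ⟨x, y⟩ hx
      rw [mem_filter, mem_product] at hx
      obtain ⟨⟨hxZ, hyZ⟩, hxy⟩ := hx
      simp only at hxZ hyZ hxy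
      rw [mem_union]
      by_cases hxy' : x = y
      · left
        rw [mem_image]
        exact ⟨x, hxZ, by rw [hxy']⟩
      · right
        have h1 := (Prod.mk.inj hxy).1
        have h2 := (Prod.mk.inj hxy).2
        rw [hf] at h1 h2
        obtain ⟨g, hg, hg'⟩ := h1
        obtain ⟨l, hl, hl'⟩ := h2
        rw [mem_image]
        refine ⟨(⟨g, hg⟩, ⟨l, hl⟩), mem_univ _, ?_⟩
        simp only
        have hne : ((g : Kˣ) : K) - ((l : Kˣ) : K) ≠ 0 := by
          intro h
          have hgl : ((g : Kˣ) : K) = ((l : Kˣ) : K) := sub_eq_zero.mp h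
          apply hxy'
          have h3 : ((l : Kˣ) : K) = 1 := by
            rw [hg', hgl] at hl'
            linear_combination -hl'
          rw [hg', hgl, h3, mul_one]
        have hx1 : (((l : Kˣ) : K) - 1) / (((g : Kˣ) : K) - ((l : Kˣ) : K)) = x := by
          rw [div_eq_iff hne]
          rw [hg'] at hl'
          linear_combination -hl'
        rw [hx1, ← hg']
    refine (card_le_card h2).trans ((card_union_le _ _).trans ?_)
    gcongr
    · exact card_image_le
    · refine card_image_le.trans ?_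
      rw [card_univ, Fintype.card_prod, ← Nat.card_eq_fintype_card, sq]
  -- contradiction
  have hrk : 1 ≤ r * k := by
    have : 1 ≤ k := by
      have : 0 < r ^ 3 + r := by positivity
      omega
    nlinarith
  have hr1 : 1 ≤ r ^ 2 := Nat.one_le_pow _ _ hr
  have e1 : (Z.card : ℤ) = r * k - 1 := by
    rw [hZcard, Nat.cast_sub hrk]; push_cast; ring
  have e2 : (J.card : ℤ) = r ^ 2 - 1 := by
    rw [hJcard, Nat.cast_sub hr1]; push_cast; ring
  have e3 : (∑ j ∈ J, (N j : ℤ)) = r * k - 1 := by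
    rw [← e1, hsum]; push_cast; rfl
  have e4 : (∑ j ∈ J, (N j : ℤ) ^ 2) ≤ r * k - 1 + k ^ 2 := by
    rw [← e1]
    exact_mod_cast hsq
  rw [e3, e2] at hCS
  have hr2 : (0 : ℤ) ≤ (r : ℤ) ^ 2 - 1 := by
    have : (1 : ℤ) ≤ (r : ℤ) ^ 2 := by exact_mod_cast hr1
    linarith
  have e5 : ((r : ℤ) * k - 1) ^ 2 ≤ ((r : ℤ) ^ 2 - 1) * (r * k - 1 + k ^ 2) :=
    hCS.trans (mul_le_mul_of_nonneg_left e4 hr2)
  have e6 : ((r : ℤ) ^ 3 + r) ≤ k := by exact_mod_cast hcard
  have e7 : (1 : ℤ) ≤ r := by exact_mod_cast hr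
  have e8 : (1 : ℤ) ≤ k := by
    have : (0:ℤ) ≤ (r : ℤ) ^ 3 := by positivity
    linarith
  nlinarith [mul_le_mul_of_nonneg_right e6 (by linarith : (0:ℤ) ≤ k)]

end finite

end Pool.Agent.U96.QH
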